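import Mathlib

/-! The Weil bound for Kloosterman sums: definitions and block statements (a known result, used as
a tool). -/

open Finset Polynomial

noncomputable section

namespace Pool.Agent.Lib.KW

/-- the Kloosterman sum -/
def Kl (n : ℕ) [NeZero n] (u v : ZMod n) : ℂ :=
  ∑ x : (ZMod n)ˣ, ZMod.stdAddChar (u * (x : ZMod n) + v * ((x⁻¹ : (ZMod n)ˣ) : ZMod n))

/-- the Kloosterman sum over an extension of the prime field -/
def KF (p : ℕ) [Fact p.Prime] (F : Type) [Field F] [Fintype F] [DecidableEq F]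
    [Algebra (ZMod p) F] (a b : ZMod p) : ℂ :=
  ∑ x ∈ univ.erase (0 : F), ZMod.stdAddChar
    (Algebra.trace (ZMod p) F (algebraMap (ZMod p) F a * x + algebraMap (ZMod p) F b * x⁻¹))

/-- the character on monic polynomials -/
def chi (p : ℕ) [Fact p.Prime] (a b : ZMod p) (f : (ZMod p)[X]) : ℂ :=
  if f.coeff 0 = 0 then 0 else ZMod.stdAddChar (-(a * f.nextCoeff) - b * (f.coeff 1 / f.coeff 0))

/-- the sum over the monic polynomials of degree `n` -/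
def SS (p : ℕ) [Fact p.Prime] (χ : (ZMod p)[X] → ℂ) (n : ℕ) : ℂ :=
  ∑ c : Fin n → ZMod p, χ (X ^ n + ∑ i : Fin n, C (c i) * X ^ (i : ℕ))

/-- the characteristic polynomial of `x` in an extension of degree `m` -/
def cp (p : ℕ) [Fact p.Prime] {F : Type} [Field F] [Algebra (ZMod p) F] (m : ℕ) (x : F) :
    (ZMod p)[X] := minpoly (ZMod p) x ^ (m / (minpoly (ZMod p) x).natDegree)

/-- Stepanov's bound over any finite field of odd characteristic -/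
def St_STEP : Prop := ∀ (F : Type) [Field F] [Fintype F] [DecidableEq F], ringChar F ≠ 2 →
  ∀ (h : F[X]) (m : ℕ), h.coeff 0 ≠ 0 → (X * h).natDegree ≤ m → 1 ≤ m →
    64 * m ^ 2 ≤ Fintype.card F →
    |∑ x : F, quadraticChar F ((X * h).eval x)| ≤ 8 * m * ((Fintype.card F).sqrt : ℤ)

/-- counting points on the curve `y ^ p - y = a x + b / x` in two ways -/
def St_CNT : Prop := ∀ (p : ℕ) [Fact p.Prime] (F : Type) [Field F] [Fintype F] [DecidableEq F]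
  [Algebra (ZMod p) F], p ≠ 2 → ∀ a b : ZMod p, a ≠ 0 → b ≠ 0 →
    ∑ t ∈ univ.erase (0 : ZMod p), KF p F (t * a) (t * b) =
      1 + ((∑ y : F, quadraticChar F ((y ^ p - y) ^ 2 - 4 * algebraMap (ZMod p) F (a * b)) : ℤ) : ℂ)

/-- the bound for the sum over all twists, along a sequence of fields -/
def St_TW : Prop := ∀ (p : ℕ) [Fact p.Prime], p ≠ 2 → ∀ a b : ZMod p, a ≠ 0 → b ≠ 0 →
  ∃ (d : ℕ) (C : ℝ), 0 < d ∧ ∀ (F : Type) [Field F] [Fintype F] [DecidableEq F]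
    [Algebra (ZMod p) F], d ∣ Module.finrank (ZMod p) F →
    ‖∑ t ∈ univ.erase (0 : ZMod p), KF p F (t * a) (t * b)‖ ≤
      C * √(p : ℝ) ^ Module.finrank (ZMod p) F

structure St_CHI : Prop where
  one : ∀ (p : ℕ) [Fact p.Prime] (a b : ZMod p), chi p a b 1 = 1
  mul : ∀ (p : ℕ) [Fact p.Prime] (a b : ZMod p) (f g : (ZMod p)[X]), f.Monic → g.Monic →
    chi p a b (f * g) = chi p a b f * chi p a b g
  s0 : ∀ (p : ℕ) [Fact p.Prime] (a b : ZMod p), SS p (chi p a b) 0 = 1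
  s1 : ∀ (p : ℕ) [Fact p.Prime] (a b : ZMod p), SS p (chi p a b) 1 = Kl p a b
  s2 : ∀ (p : ℕ) [Fact p.Prime] (a b : ZMod p), a ≠ 0 → b ≠ 0 → SS p (chi p a b) 2 = p
  s3 : ∀ (p : ℕ) [Fact p.Prime] (a b : ZMod p), a ≠ 0 → ∀ n, 3 ≤ n → SS p (chi p a b) n = 0

/-- the value of the character at a characteristic polynomial -/
def St_TR : Prop := ∀ (p : ℕ) [Fact p.Prime] (F : Type) [Field F] [Fintype F] [DecidableEq F]
  [Algebra (ZMod p) F] (a b : ZMod p),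
    ∑ x : F, chi p a b (cp p (Module.finrank (ZMod p) F) x) = KF p F a b

open Classical in
/-- the degree as a number of pairs -/
def St_DEG : Prop := ∀ (p : ℕ) [Fact p.Prime] (F : ℕ → Type) [∀ m, Field (F m)]
  [∀ m, Fintype (F m)] [∀ m, Algebra (ZMod p) (F m)],
  (∀ m, 0 < m → Module.finrank (ZMod p) (F m) = m) → ∀ f : (ZMod p)[X], f.Monic →
    ∑ m ∈ Icc 1 f.natDegree, #{x : F m | cp p m x ∣ f} = f.natDegree

/-- the logarithmic derivative of the L-function -/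
def St_NEWT : Prop := ∀ (p : ℕ) [Fact p.Prime] (F : ℕ → Type) [∀ m, Field (F m)]
  [∀ m, Fintype (F m)] [∀ m, Algebra (ZMod p) (F m)],
  (∀ m, 0 < m → Module.finrank (ZMod p) (F m) = m) → ∀ χ : (ZMod p)[X] → ℂ,
    (∀ f g : (ZMod p)[X], f.Monic → g.Monic → χ (f * g) = χ f * χ g) → ∀ n : ℕ,
    n * SS p χ n = ∑ m ∈ Icc 1 n, (∑ x : F m, χ (cp p m x)) * SS p χ (n - m)

structure St_PS : Prop where
  /-- solving the recurrence -/
  recu : ∀ (S T : ℕ → ℂ) (α β : ℂ), S 0 = 1 → S 1 = -(α + β) → S 2 = α * β →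
    (∀ n, 3 ≤ n → S n = 0) → (∀ n : ℕ, n * S n = ∑ m ∈ Icc 1 n, T m * S (n - m)) →
    ∀ m, 0 < m → T m = -(α ^ m + β ^ m)
  /-- power sums -/
  bd : ∀ (ι : Type) (s : Finset ι) (ω : ι → ℂ) (d : ℕ) (C θ : ℝ), 0 < d → 0 ≤ θ →
    (∀ j, 0 < j → ‖∑ i ∈ s, ω i ^ (d * j)‖ ≤ C * θ ^ (d * j)) → ∀ i ∈ s, ‖ω i‖ ≤ θ

/-- the bound for prime moduli -/
def St_PRIME : Prop := ∀ (p : ℕ) [Fact p.Prime] (u v : ZMod p), v ≠ 0 → ‖Kl p u v‖ ≤ 2 * √(p : ℝ)

/-- the bound for prime powers -/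
def St_PP : Prop := ∀ (p k : ℕ) [Fact p.Prime] (u v : ZMod (p ^ k)),
  ‖Kl (p ^ k) u v‖ ≤ 6 * √((p ^ k : ℕ) : ℝ) * √(Nat.gcd v.val (p ^ k) : ℝ)

def St_KW : Prop := ∀ ε : ℝ, 0 < ε → ∃ C : ℝ, ∀ (n : ℕ) [NeZero n] (u v : ZMod n),
  ‖∑ x : (ZMod n)ˣ, ZMod.stdAddChar (u * (x : ZMod n) + v * ((x⁻¹ : (ZMod n)ˣ) : ZMod n))‖ ≤
    C * (n : ℝ) ^ (1 / 2 + ε) * √(Nat.gcd v.val n : ℝ)

end Pool.Agent.Lib.KW
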