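import Pool.Agent.Lib.KW.Blue

/-! Block CNT: counting the points of an Artin-Schreier curve in two ways. -/

open Finset Polynomial

noncomputable section

namespace Pool.Agent.Lib.KW

namespace CNT

variable {p : ℕ} [Fact p.Prime] {F : Type} [Field F] [Fintype F] [DecidableEq F]
  [Algebra (ZMod p) F]

omit [DecidableEq F] in
theorem tr_zero (y : F) : Algebra.trace (ZMod p) F (y ^ p - y) = 0 := by
  have : CharP F p := charP_of_injective_algebraMap (algebraMap (ZMod p) F).injective p
  apply (algebraMap (ZMod p) F).injective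
  rw [FiniteField.algebraMap_trace_eq_sum_pow, map_zero, Nat.card_zmod]
  simp only [sub_pow_char_pow, ← pow_mul, ← pow_succ']
  rw [sum_range_sub fun i ↦ y ^ p ^ i, FiniteField.pow_finrank_eq_card, FiniteField.pow_card,
    pow_zero, pow_one, sub_self]

theorem le_p (w : F) : #{y : F | y ^ p - y = w} ≤ p := by
  have hp := (Fact.out : p.Prime).one_lt
  have h1 : (X + C w : F[X]).degree < (p : WithBot ℕ) := by
    rw [degree_X_add_C]
    exact_mod_cast hp
  have h2 : (X ^ p - (X + C w) : F[X]).natDegree = p := natDegree_eq_of_degree_eq_some (by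
    rw [degree_sub_eq_left_of_degree_lt (by rwa [degree_X_pow]), degree_X_pow])
  refine (card_le_degree_of_subset_roots fun y hy ↦ ?_).trans h2.le
  rw [mem_roots (monic_X_pow_sub h1).ne_zero, IsRoot, eval_sub, eval_add, eval_pow, eval_X, eval_C]
  linear_combination (mem_filter.1 hy).2

omit [DecidableEq F] in
theorem ker_card : #{w : F | Algebra.trace (ZMod p) F w = 0} * p = Fintype.card F := by
  have h := Algebra.trace_surjective (ZMod p) F
  rw [← card_univ, card_eq_sum_card_fiberwise (f := Algebra.trace (ZMod p) F) (s := univ) (t := univ)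
    fun _ _ ↦ mem_univ _, sum_congr rfl fun t _ ↦
      AddMonoidHom.card_fiber_eq_of_mem_range (Algebra.trace (ZMod p) F) (h t) (h 0),
    sum_const, card_univ, ZMod.card, smul_eq_mul, mul_comm]

theorem fibre (w : F) :
    #{y : F | y ^ p - y = w} = if Algebra.trace (ZMod p) F w = 0 then p else 0 := by
  split_ifs with h
  · refine (sum_eq_sum_iff_of_le (s := {w : F | Algebra.trace (ZMod p) F w = 0})
      (f := fun w ↦ #{y : F | y ^ p - y = w}) (g := fun _ ↦ p) fun w _ ↦ le_p w).1 ?_ w
      (mem_filter.2 ⟨mem_univ _, h⟩)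
    rw [sum_const, smul_eq_mul, ker_card, ← card_univ]
    exact (card_eq_sum_card_fiberwise fun y _ ↦ mem_filter.2 ⟨mem_univ _, tr_zero y⟩).symm
  · exact card_eq_zero.2 (filter_eq_empty_iff.2 fun y _ e ↦ h (e ▸ tr_zero y))

theorem quad (h2 : ringChar F ≠ 2) {A B : F} (hA : A ≠ 0) (hB : B ≠ 0) (w : F) :
    (#{x ∈ univ.erase (0 : F) | w = A * x + B * x⁻¹} : ℤ) =
      quadraticChar F (w ^ 2 - 4 * (A * B)) + 1 := by
  have h3 := mul_ne_zero (Ring.two_ne_zero h2) hA
  rw [← quadraticChar_card_sqrts h2, Nat.cast_inj]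
  refine card_bij (fun x _ ↦ 2 * A * x - w) (fun x hx ↦ ?_) (fun x _ y _ e ↦ ?_) fun z hz ↦ ?_
  · obtain ⟨a1, a2⟩ := mem_filter.1 hx
    have a3 := mul_inv_cancel₀ (ne_of_mem_erase a1)
    rw [Set.mem_toFinset, Set.mem_ofPred_eq]
    linear_combination (-4 * A * x) * a2 - 4 * A * B * a3
  · exact mul_left_cancel₀ h3 (sub_left_injective e)
  · rw [Set.mem_toFinset, Set.mem_ofPred_eq] at hz
    obtain ⟨x, rfl⟩ : ∃ x, z = 2 * A * x - w := ⟨(z + w) / (2 * A), by
      rw [mul_div_cancel₀ _ h3, add_sub_cancel_right]⟩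
    have a1 : A * x ^ 2 - w * x + B = 0 := mul_left_cancel₀ (mul_ne_zero h3 (Ring.two_ne_zero h2))
      (by linear_combination hz)
    have a2 : x ≠ 0 := by
      rintro rfl
      exact hB (by simpa using a1)
    refine ⟨x, mem_filter.2 ⟨mem_erase.2 ⟨a2, mem_univ _⟩, ?_⟩, rfl⟩
    field_simp
    linear_combination -a1

end CNT

open CNT in
theorem st_CNT : St_CNT := by
  intro p _ F _ _ _ _ hp a b ha hb
  have inj := (algebraMap (ZMod p) F).injective
  have : CharP F p := charP_of_injective_algebraMap inj p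
  have h2 : ringChar F ≠ 2 := by rwa [ringChar.eq F p]
  have h0 : KF p F (0 * a) (0 * b) = Fintype.card F - 1 := by
    simp only [KF, zero_mul, map_zero, add_zero, AddChar.map_zero_eq_one, sum_const, nsmul_eq_mul,
      mul_one, cast_card_erase_of_mem (mem_univ (0 : F)), card_univ]
  have h1 : ∑ t : ZMod p, KF p F (t * a) (t * b) = ∑ y : F, ((quadraticChar F
      ((y ^ p - y) ^ 2 - 4 * algebraMap (ZMod p) F (a * b)) + 1 : ℤ) : ℂ) := by
    simp only [map_mul (algebraMap (ZMod p) F) a b, ← quad h2 ((map_ne_zero_iff _ inj).2 ha)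
      ((map_ne_zero_iff _ inj).2 hb), Int.cast_natCast, card_filter, Nat.cast_sum, Int.cast_sum]
    unfold KF
    rw [sum_comm, sum_comm (s := (univ : Finset F))]
    refine sum_congr rfl fun x _ ↦ ?_
    rw [← Nat.cast_sum, ← card_filter, fibre]
    have h3 := AddChar.sum_mulShift (Algebra.trace (ZMod p) F (algebraMap (ZMod p) F a * x +
      algebraMap (ZMod p) F b * x⁻¹)) (ZMod.isPrimitive_stdAddChar p)
    rw [ZMod.card] at h3
    rw [← h3]
    refine sum_congr rfl fun t _ ↦ ?_
    rw [← smul_eq_mul t (Algebra.trace _ _ _), ← map_smul, Algebra.smul_def, map_mul, map_mul,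
      mul_add, mul_assoc, mul_assoc]
  rw [← add_sum_erase _ _ (mem_univ 0), h0] at h1
  push_cast at h1 ⊢
  rw [sum_add_distrib, sum_const, card_univ, nsmul_eq_mul, mul_one] at h1
  linear_combination h1

end Pool.Agent.Lib.KW
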