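import Pool.Agent.Lib.KW.Blue

/-! Blocks DEG and NEWT: the logarithmic derivative of the L-function. -/

open Finset Polynomial

noncomputable section

namespace Pool.Agent.Lib.KW

namespace DEG

variable {p : ℕ} [Fact p.Prime] {F : Type} [Field F] [Fintype F] [Algebra (ZMod p) F]

theorem int (x : F) : IsIntegral (ZMod p) x := Algebra.IsIntegral.isIntegral x

theorem cp_monic (m : ℕ) (x : F) : (cp p m x).Monic := (minpoly.monic (int x)).pow _

theorem cp_deg {m : ℕ} (h : Module.finrank (ZMod p) F = m) (x : F) : (cp p m x).natDegree = m := by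
  rw [cp, natDegree_pow, Nat.div_mul_cancel (h ▸ minpoly.degree_dvd (int x))]

open Classical in
theorem card_roots {P : (ZMod p)[X]} (h1 : P.Monic) (h2 : Irreducible P)
    (h3 : P.natDegree ∣ Module.finrank (ZMod p) F) :
    #{x : F | minpoly (ZMod p) x = P} = P.natDegree := by
  have h4 := h2.natDegree_dvd_iff_dvd_X_pow_card_pow_sub_X.1 h3
  rw [Nat.card_zmod, FiniteField.pow_finrank_eq_card] at h4
  have h6 : (X ^ Fintype.card F - X : (ZMod p)[X]) ≠ 0 :=
    FiniteField.X_pow_card_sub_X_ne_zero _ Fintype.one_lt_card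
  have h5 : (P.map (algebraMap (ZMod p) F)).Splits :=
    (FiniteField.splits_X_pow_card_sub_X p (K := F)).of_dvd (Polynomial.map_ne_zero h6)
      (Polynomial.map_dvd _ h4)
  rw [← card_rootSet_eq_natDegree (PerfectField.separable_of_irreducible h2) h5,
    ← Set.toFinset_card]
  congr 1
  ext x
  rw [mem_filter, Set.mem_toFinset, mem_rootSet_of_ne h2.ne_zero]
  exact ⟨fun h ↦ h.2 ▸ minpoly.aeval _ x,
    fun h ↦ ⟨mem_univ _, (minpoly.eq_of_irreducible_of_monic h2 h h1).symm⟩⟩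

open Classical in
theorem card_step {m : ℕ} (h : Module.finrank (ZMod p) F = m) {P g : (ZMod p)[X]}
    (h1 : P.Monic) (h2 : Irreducible P) (h3 : ¬ P ∣ g) (e : ℕ) :
    #{x : F | cp p m x ∣ P * (P ^ e * g)} = #{x : F | cp p m x ∣ P ^ e * g} +
      if m = (e + 1) * P.natDegree then P.natDegree else 0 := by
  have key : ∀ j n : ℕ, P ^ j ∣ P ^ n * g ↔ j ≤ n := fun j n ↦ by
    rw [← pow_dvd_pow_iff h2.ne_zero h2.not_isUnit]
    exact ⟨(h2.coprime_iff_not_dvd.2 h3).pow_left.dvd_of_dvd_mul_right, fun a ↦ a.mul_right _⟩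
  have h4 : #{x : F | minpoly (ZMod p) x = P ∧ m = (e + 1) * P.natDegree} =
      if m = (e + 1) * P.natDegree then P.natDegree else 0 := by
    split_ifs with h5
    · simp only [h5, and_true]
      exact card_roots h1 h2 (by rw [h, h5]; exact dvd_mul_left _ _)
    · simp [h5]
  have h5 : ∀ x : F, minpoly (ZMod p) x = P →
      ∃ j, m = j * P.natDegree ∧ cp p m x = P ^ j := fun x hx ↦ by
    refine ⟨m / P.natDegree, ?_, by rw [cp, hx]⟩
    rw [Nat.div_mul_cancel (hx ▸ h ▸ minpoly.degree_dvd (int x))]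
  have h6 := h2.natDegree_pos
  rw [← h4, ← card_union_of_disjoint, ← filter_or]
  · refine congrArg card (filter_congr fun x _ ↦ ?_)
    by_cases hx : minpoly (ZMod p) x = P
    · obtain ⟨j, a1, a2⟩ := h5 x hx
      rw [a2, ← mul_assoc, ← pow_succ', key, key, a1, mul_left_inj' h6.ne']
      simp only [hx, true_and]
      omega
    · have a1 : IsCoprime (minpoly (ZMod p) x) P := by
        rw [(minpoly.irreducible (int x)).coprime_iff_not_dvd]
        exact fun a ↦ hx (eq_of_monic_of_associated (minpoly.monic (int x)) h1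
          ((minpoly.irreducible (int x)).associated_of_dvd h2 a))
      simp only [hx, false_and, or_false]
      exact ⟨a1.pow_left.dvd_of_dvd_mul_left, fun a ↦ a.mul_left _⟩
  · refine disjoint_filter.2 fun x _ a1 ⟨hx, a2⟩ ↦ ?_
    obtain ⟨j, a3, a4⟩ := h5 x hx
    rw [a4, key] at a1
    rw [a3, mul_left_inj' h6.ne'] at a2
    omega

/-- the monic polynomial with given lower coefficients -/
def mk {n : ℕ} (c : Fin n → ZMod p) : (ZMod p)[X] := X ^ n + ∑ i : Fin n, C (c i) * X ^ (i : ℕ)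

theorem mk_spec {n : ℕ} (c : Fin n → ZMod p) : (mk c).Monic ∧ (mk c).natDegree = n := by
  have h : (∑ i : Fin n, C (c i) * X ^ (i : ℕ)).degree < (n : WithBot ℕ) := degree_sum_fin_lt c
  refine ⟨monic_X_pow_add h, natDegree_eq_of_degree_eq_some ?_⟩
  rw [mk, degree_add_eq_left_of_degree_lt (by rwa [degree_X_pow]), degree_X_pow]

theorem mk_coeff {n : ℕ} (c : Fin n → ZMod p) (i : Fin n) : (mk c).coeff i = c i := by
  rw [mk, coeff_add, coeff_X_pow, if_neg i.2.ne, zero_add, finsetSum_coeff, sum_eq_single i]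
  · simp
  · intro j _ hj
    rw [coeff_C_mul_X_pow, if_neg fun e ↦ hj (Fin.ext e.symm)]
  · simp

theorem mk_surj {n : ℕ} {f : (ZMod p)[X]} (h1 : f.Monic) (h2 : f.natDegree = n) :
    ∃ c : Fin n → ZMod p, mk c = f := by
  refine ⟨fun i ↦ f.coeff i, ?_⟩
  conv_rhs => rw [h1.as_sum, h2, ← Fin.sum_univ_eq_sum_range fun i ↦ C (f.coeff i) * X ^ i]
  rfl

theorem mk_inj {n : ℕ} : Function.Injective (mk : (Fin n → ZMod p) → (ZMod p)[X]) :=
  fun c c' h ↦ funext fun i ↦ by rw [← mk_coeff c, h, mk_coeff]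

open Classical in
theorem sum_dvd (χ : (ZMod p)[X] → ℂ) {q : (ZMod p)[X]} (h : q.Monic) {m n : ℕ}
    (hq : q.natDegree = m) (hn : m ≤ n) :
    ∑ c : Fin n → ZMod p with q ∣ mk c, χ (mk c) = ∑ c : Fin (n - m) → ZMod p, χ (q * mk c) := by
  have a1 : ∀ c : Fin (n - m) → ZMod p, ∃ c' : Fin n → ZMod p, mk c' = q * mk c := fun c ↦
    mk_surj (h.mul (mk_spec c).1) (by rw [h.natDegree_mul (mk_spec c).1, hq, (mk_spec c).2]; omega)
  choose φ hφ using a1
  refine (sum_bij (fun c _ ↦ φ c) (fun c _ ↦ ?_) (fun c _ c' _ e ↦ ?_) (fun c hc ↦ ?_)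
    fun c _ ↦ by rw [hφ]).symm
  · exact mem_filter.2 ⟨mem_univ _, hφ c ▸ dvd_mul_right _ _⟩
  · exact mk_inj (mul_left_cancel₀ h.ne_zero (by rw [← hφ, ← hφ, e]))
  · obtain ⟨g, hg⟩ := (mem_filter.1 hc).2
    have b1 : g.Monic := h.of_mul_monic_left (hg ▸ (mk_spec c).1)
    have b2 := (mk_spec c).2
    rw [hg, h.natDegree_mul b1, hq] at b2
    obtain ⟨c', hc'⟩ := mk_surj (n := n - m) b1 (by omega)
    exact ⟨c', mem_univ _, mk_inj (by rw [hφ, hc', hg])⟩

end DEG

open DEG in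
theorem st_DEG : St_DEG := by
  intro p _ F _ _ _ hF
  classical
  suffices h : ∀ (n N : ℕ) (f : (ZMod p)[X]), f.Monic → f.natDegree = n → n ≤ N →
      ∑ m ∈ Icc 1 N, #{x : F m | cp p m x ∣ f} = n by
    intro f hf
    exact (sum_congr rfl fun m _ ↦ congrArg card (filter_congr_decidable _ _ _).symm).trans
      (h _ _ f hf rfl le_rfl)
  intro n
  induction n using Nat.strong_induction_on with
  | _ n ih =>
    intro N f hf hn hN
    by_cases hu : IsUnit f
    · rw [hf.isUnit_iff] at hu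
      subst hu
      rw [← hn, natDegree_one]
      refine sum_eq_zero fun m hm ↦ card_eq_zero.2 (filter_eq_empty_iff.2 fun x _ a ↦ ?_)
      have a1 := natDegree_le_of_dvd a one_ne_zero
      have a2 := (mem_Icc.1 hm).1
      rw [cp_deg (hF m a2), natDegree_one] at a1
      omega
    obtain ⟨P, h1, h2, g, rfl⟩ := exists_monic_irreducible_factor f hu
    have h3 : g.Monic := h1.of_mul_monic_left hf
    obtain ⟨e, g, h4, rfl⟩ := WfDvdMonoid.max_power_factor h3.ne_zero h2
    have h5 : g.Monic := (h1.pow e).of_mul_monic_left h3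
    have h6 := h2.natDegree_pos
    rw [h1.natDegree_mul h3] at hn
    have h7 := (h1.pow e).natDegree_mul h5
    rw [natDegree_pow] at h7
    rw [sum_congr rfl fun m hm ↦ card_step (hF m (mem_Icc.1 hm).1) h1 h2 h4 e,
      sum_add_distrib, sum_ite_eq', if_pos (mem_Icc.2 ⟨by nlinarith, by nlinarith⟩)]
    have h8 := ih _ (by omega) N _ h3 rfl (by omega)
    rw [← hn, add_comm, ← h8]

open DEG in
theorem st_NEWT (hD : St_DEG) : St_NEWT := by
  intro p _ F _ _ _ hF χ hχ n
  classical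
  have e : ∀ k, SS p χ k = ∑ c : Fin k → ZMod p, χ (mk c) := fun _ ↦ rfl
  have h1 : ∀ c : Fin n → ZMod p, (n : ℂ) * χ (mk c) =
      ∑ m ∈ Icc 1 n, ∑ x : F m, if cp p m x ∣ mk c then χ (mk c) else 0 := fun c ↦ by
    have a1 := hD p F hF _ (mk_spec c).1
    rw [(mk_spec c).2] at a1
    rw [← congrArg (Nat.cast : ℕ → ℂ) a1, Nat.cast_sum, sum_mul]
    refine sum_congr rfl fun m _ ↦ ?_
    rw [← sum_filter, sum_const, nsmul_eq_mul]
  rw [e, mul_sum, sum_congr rfl fun c _ ↦ h1 c, sum_comm]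
  refine sum_congr rfl fun m hm ↦ ?_
  rw [sum_comm, sum_mul]
  refine sum_congr rfl fun x _ ↦ ?_
  rw [← sum_filter, e, mul_sum]
  refine Eq.trans ?_ ((sum_dvd χ (cp_monic m x) (cp_deg (hF m (mem_Icc.1 hm).1) x)
    (mem_Icc.1 hm).2).trans (sum_congr rfl fun c _ ↦ hχ _ _ (cp_monic m x) (mk_spec c).1))
  exact sum_congr (filter_congr_decidable _ _ _) fun _ _ ↦ rfl

end Pool.Agent.Lib.KW
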