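import Pool.Agent.Lib.KW.PP
import Pool.Agent.Lib.KW.Blue
import Pool.Agent.Lib.MP_090305_nt.Kloosterman

/-! Kloosterman sums to arbitrary moduli. -/

open Finset ZMod

noncomputable section

namespace Pool.Agent.Lib.KW

open PP

namespace MULT

theorem kl_mul {m n : ℕ} [NeZero m] [NeZero n] [NeZero (m * n)] (h : m.Coprime n)
    (u v : ZMod (m * n)) : kl stdAddChar u v =
      kl stdAddChar ((n : ZMod m)⁻¹ * castHom (dvd_mul_right m n) (ZMod m) u)
        ((n : ZMod m)⁻¹ * castHom (dvd_mul_right m n) (ZMod m) v) *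
      kl stdAddChar ((m : ZMod n)⁻¹ * castHom (dvd_mul_left n m) (ZMod n) u)
        ((m : ZMod n)⁻¹ * castHom (dvd_mul_left n m) (ZMod n) v) := by
  unfold kl
  rw [sum_mul_sum, ← sum_product']
  let e : (ZMod (m * n))ˣ ≃* (ZMod m)ˣ × (ZMod n)ˣ :=
    (Units.mapEquiv (chineseRemainder h).toMulEquiv).trans MulEquiv.prodUnits
  have he1 : ∀ x : (ZMod (m * n))ˣ, (((e x).1 : (ZMod m)ˣ) : ZMod m) =
      castHom (dvd_mul_right m n) (ZMod m) x := fun x => by
    simp [e, MulEquiv.prodUnits, chineseRemainder]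
  have he2 : ∀ x : (ZMod (m * n))ˣ, (((e x).2 : (ZMod n)ˣ) : ZMod n) =
      castHom (dvd_mul_left n m) (ZMod n) x := fun x => by
    simp [e, MulEquiv.prodUnits, chineseRemainder]
  rw [univ_product_univ, ← Equiv.sum_comp e.toEquiv]
  refine sum_congr rfl fun x _ => ?_
  rw [MP_090305_nt.std_split m n h]
  have i1 : ((e x).1)⁻¹ = (e x⁻¹).1 := by rw [map_inv]; rfl
  have i2 : ((e x).2)⁻¹ = (e x⁻¹).2 := by rw [map_inv]; rfl
  simp only [MulEquiv.toEquiv_eq_coe, EquivLike.coe_coe]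
  rw [i1, i2, he1, he2, he1, he2]
  simp only [map_mul, map_add, mul_assoc, mul_add]

theorem gcd_dvd {m n N : ℕ} [NeZero m] [NeZero N] (hN : m ∣ N) (h : n.Coprime m) (v : ZMod N) :
    Nat.gcd ((n : ZMod m)⁻¹ * castHom hN (ZMod m) v).val m ∣ v.val := by
  generalize hw : (n : ZMod m)⁻¹ * castHom hN (ZMod m) v = w
  have h1 : castHom hN (ZMod m) v = n * w := by
    rw [← hw, ← mul_assoc, coe_mul_inv_eq_one n h, one_mul]
  have h2 := congrArg (castHom (Nat.gcd_dvd_right w.val m) (ZMod (Nat.gcd w.val m))) h1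
  rw [← natCast_zmod_val v, ← natCast_zmod_val w, map_natCast, map_natCast, ← Nat.cast_mul,
    map_natCast, Nat.cast_mul, natCast_zmod_val w,
    (natCast_eq_zero_iff _ _).2 (Nat.gcd_dvd_left w.val m), mul_zero] at h2
  exact (natCast_eq_zero_iff _ _).1 h2

theorem all_mod (hP : St_PP) (n : ℕ) : ∀ [NeZero n] (u v : ZMod n),
    ‖kl stdAddChar u v‖ ≤ 6 ^ #n.primeFactors * √n * √(Nat.gcd v.val n : ℕ) := by
  induction n using Nat.recOnPosPrimePosCoprime with
  | zero => exact fun {h} => absurd rfl h.ne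
  | one => exact fun u v => (kl_triv u v).trans (by simp)
  | prime_pow p k hp hk =>
    intro _ u v
    have := Fact.mk hp
    rw [Nat.primeFactors_prime_pow hk.ne' hp, card_singleton, pow_one]
    exact hP p k u v
  | coprime m n hm hn h ihm ihn =>
    intro _ u v
    have : NeZero m := ⟨by omega⟩
    have : NeZero n := ⟨by omega⟩
    rw [kl_mul h, norm_mul]
    refine (mul_le_mul (ihm _ _) (ihn _ _) (norm_nonneg _) (by positivity)).trans ?_
    have h1 := Nat.le_of_dvd (Nat.gcd_pos_of_pos_right _ (NeZero.pos (m * n))) (Nat.dvd_gcd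
      (((h.coprime_dvd_left (Nat.gcd_dvd_right _ _)).coprime_dvd_right
        (Nat.gcd_dvd_right _ _)).mul_dvd_of_dvd_of_dvd (gcd_dvd (dvd_mul_right m n) h.symm v)
          (gcd_dvd (dvd_mul_left n m) h v))
      (mul_dvd_mul (Nat.gcd_dvd_right _ _) (Nat.gcd_dvd_right _ _)))
    refine le_trans (le_of_eq ?_) (mul_le_mul_of_nonneg_left
      (Real.sqrt_le_sqrt (Nat.cast_le.2 h1)) (by positivity))
    rw [h.primeFactors_mul, card_union_of_disjoint h.disjoint_primeFactors, pow_add, Nat.cast_mul,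
      Nat.cast_mul, Real.sqrt_mul (Nat.cast_nonneg _), Real.sqrt_mul (Nat.cast_nonneg _)]
    ring

theorem pow_omega {C ε : ℝ} (hC : 1 ≤ C) (hε : 0 < ε) :
    ∃ B : ℝ, ∀ n : ℕ, n ≠ 0 → C ^ #n.primeFactors ≤ B * (n : ℝ) ^ ε := by
  obtain ⟨N, hN⟩ := exists_nat_ge (C ^ ε⁻¹)
  refine ⟨C ^ N, fun n hn => ?_⟩
  have h1 : ∏ p ∈ n.primeFactors, (p : ℝ) ^ ε ≤ (n : ℝ) ^ ε := by
    rw [Real.finsetProd_rpow _ _ fun _ _ => Nat.cast_nonneg _, ← Nat.cast_prod]
    exact Real.rpow_le_rpow (Nat.cast_nonneg _) (Nat.cast_le.2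
      (Nat.le_of_dvd (Nat.pos_of_ne_zero hn) (Nat.prod_primeFactors_dvd n))) hε.le
  have h2 : ∏ p ∈ n.primeFactors, (if p < N then C else 1) ≤ C ^ N := by
    rw [← prod_filter, prod_const]
    exact pow_le_pow_right₀ hC ((card_le_card fun p hp =>
      mem_range.2 (mem_filter.1 hp).2).trans (card_range N).le)
  refine le_trans ?_ (mul_le_mul h2 h1 (by positivity) (by positivity))
  rw [← prod_mul_distrib, ← prod_const]
  refine prod_le_prod (fun _ _ => by positivity) fun p hp => ?_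
  split_ifs with h
  · exact le_mul_of_one_le_right (by positivity) (Real.one_le_rpow
      (Nat.one_le_cast.2 (Nat.pos_of_mem_primeFactors hp)) hε.le)
  · rw [one_mul, ← Real.rpow_inv_le_iff_of_pos (by positivity) (Nat.cast_nonneg _) hε]
    exact hN.trans (Nat.cast_le.2 (not_lt.1 h))

end MULT

theorem st_KW (hP : St_PP) : St_KW := by
  intro ε hε
  obtain ⟨B, hB⟩ := MULT.pow_omega (C := 6) (by norm_num) hε
  refine ⟨B, fun n _ u v => (MULT.all_mod hP n u v).trans ?_⟩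
  rw [Real.rpow_add (Nat.cast_pos.2 (NeZero.pos n)), ← Real.sqrt_eq_rpow, mul_comm √n, ← mul_assoc]
  gcongr
  exact hB n (NeZero.ne n)

end Pool.Agent.Lib.KW
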