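import Pool.Agent.Lib.KW.PP
import Pool.Agent.Lib.KW.Blue

/-! The bound for prime powers. -/

namespace Pool.Agent.Lib.KW

theorem st_PP (hP : St_PRIME) : St_PP := fun p k _ u v =>
  PP.prime_pow (fun u v hv => (hP p u v hv).trans (by gcongr; norm_num)) le_rfl k u v

end Pool.Agent.Lib.KW
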