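import Pool.Agent.Lib.KW.Blue

/-! Block PRIME: the Weil bound for prime moduli. -/

open Finset Polynomial

noncomputable section

namespace Pool.Agent.Lib.KW

namespace PRIME

theorem small (p : ℕ) [Fact p.Prime] (u v : ZMod p) : ‖Kl p u v‖ ≤ ((p - 1 : ℕ) : ℝ) := by
  refine (norm_sum_le _ _).trans ?_
  simp only [AddChar.norm_apply, sum_const, card_univ, ZMod.card_units, nsmul_eq_mul, mul_one, le_refl]

theorem zero (p : ℕ) [Fact p.Prime] {v : ZMod p} (hv : v ≠ 0) : Kl p 0 v = -1 := by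
  have h1 := AddChar.sum_mulShift v (ZMod.isPrimitive_stdAddChar p)
  rw [if_neg hv, Nat.cast_zero, ← add_sum_erase _ _ (mem_univ 0)] at h1
  have h2 : Kl p 0 v = ∑ x ∈ univ.erase (0 : ZMod p), ZMod.stdAddChar (x * v) := by
    refine sum_bij (fun x _ ↦ ((x⁻¹ : (ZMod p)ˣ) : ZMod p))
      (fun x _ ↦ mem_erase.2 ⟨Units.ne_zero _, mem_univ _⟩)
      (fun x _ y _ e ↦ inv_injective (Units.ext e)) (fun y hy ↦ ?_) fun x _ ↦ by
        rw [zero_mul, zero_add, mul_comm]
    exact ⟨(Units.mk0 y (ne_of_mem_erase hy))⁻¹, mem_univ _, by simp⟩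
  rw [h2]
  simp only [zero_mul, AddChar.map_zero_eq_one] at h1
  linear_combination h1

theorem roots (s c : ℂ) : ∃ α β : ℂ, s = -(α + β) ∧ c = α * β := by
  obtain ⟨z, hz⟩ := IsAlgClosed.exists_pow_nat_eq (s ^ 2 - 4 * c) two_pos
  exact ⟨(-s + z) / 2, (-s - z) / 2, by ring, by linear_combination hz / 4⟩

end PRIME

open PRIME in
theorem st_PRIME (hW : St_TW) (hC : St_CHI) (hT : St_TR) (hN : St_NEWT) (hP : St_PS) :
    St_PRIME := by
  intro p hp u v hv
  classical
  have p1 : (1 : ℝ) ≤ √(p : ℝ) := Real.one_le_sqrt.2 (by exact_mod_cast hp.out.one_le)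
  by_cases h2 : p = 2
  · refine (small p u v).trans ?_
    rw [h2] at p1 ⊢
    rw [show 2 - 1 = 1 from rfl, Nat.cast_one]
    linarith
  by_cases hu : u = 0
  · rw [hu, zero p hv, norm_neg, norm_one]
    linarith
  let _ : ∀ m, Fintype (GaloisField p m) := fun m ↦ Fintype.ofFinite _
  have hF : ∀ m, 0 < m → Module.finrank (ZMod p) (GaloisField p m) = m := fun m hm ↦
    GaloisField.finrank p hm.ne'
  choose α β h1 h3 using fun t : ZMod p ↦ roots (Kl p (t * u) (t * v)) p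
  have key : ∀ t, t ≠ 0 → ∀ m, 0 < m →
      KF p (GaloisField p m) (t * u) (t * v) = -(α t ^ m + β t ^ m) := fun t ht m hm ↦ by
    have a1 := mul_ne_zero ht hu
    have a2 := mul_ne_zero ht hv
    rw [← hT, hF m hm]
    exact hP.recu _ (fun m ↦ ∑ x : GaloisField p m, chi p (t * u) (t * v) (cp p m x)) _ _
      (hC.s0 p _ _) ((hC.s1 p _ _).trans (h1 t)) ((hC.s2 p _ _ a1 a2).trans (h3 t))
      (hC.s3 p _ _ a1) (hN p (GaloisField p) hF _ (hC.mul p _ _)) m hm
  obtain ⟨d, C, hd, hb⟩ := hW p h2 u v hu hv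
  have h4 := hP.bd (ZMod p × Bool) (univ.erase 0 ×ˢ univ) (fun i ↦ cond i.2 (α i.1) (β i.1)) d C _
    hd (Real.sqrt_nonneg p) fun j hj ↦ by
      have a1 := Nat.mul_pos hd hj
      have a2 := hb (GaloisField p (d * j)) (by rw [hF _ a1]; exact dvd_mul_right _ _)
      rw [hF _ a1, sum_congr rfl fun t ht ↦ key t (ne_of_mem_erase ht) _ a1, sum_neg_distrib,
        norm_neg] at a2
      rw [sum_product]
      simpa only [Fintype.sum_bool, cond_true, cond_false] using a2
  have h5 := h4 (1, true) (by simp)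
  have h6 := h4 (1, false) (by simp)
  have h7 := h1 1
  rw [one_mul, one_mul] at h7
  rw [h7, norm_neg, two_mul]
  exact (norm_add_le _ _).trans (add_le_add h5 h6)

end Pool.Agent.Lib.KW
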