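import Pool.Agent.Lib.KW.Blue

/-! Power sums. -/

open Finset Filter

namespace Pool.Agent.Lib.KW

namespace PS

theorem twist {ι : Type} (s : Finset ι) (l : ι → ℂ) (Θ C : ℝ)
    (h : ∀ j, 0 < j → ‖∑ i ∈ s, l i ^ j‖ ≤ C * Θ ^ j) (t : Finset ℂ) :
    ∃ C' : ℝ, ∀ j, 0 < j → ‖∑ i ∈ s, (∏ μ ∈ t, (l i - μ)) * l i ^ j‖ ≤ C' * Θ ^ j := by
  classical
  induction t using Finset.induction_on with
  | empty => exact ⟨C, by simpa using h⟩
  | insert μ t hμ ih =>
    obtain ⟨C', h'⟩ := ih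
    refine ⟨C' * Θ + ‖μ‖ * C', fun j hj => ?_⟩
    have e : ∑ i ∈ s, (∏ ν ∈ insert μ t, (l i - ν)) * l i ^ j =
        ∑ i ∈ s, (∏ ν ∈ t, (l i - ν)) * l i ^ (j + 1) -
          μ * ∑ i ∈ s, (∏ ν ∈ t, (l i - ν)) * l i ^ j := by
      rw [mul_sum, ← sum_sub_distrib]
      exact sum_congr rfl fun i _ => by rw [prod_insert hμ]; ring
    rw [e]
    refine (norm_sub_le _ _).trans ?_
    rw [norm_mul]
    have h1 := h' (j + 1) j.succ_pos
    have h2 := mul_le_mul_of_nonneg_left (h' j hj) (norm_nonneg μ)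
    rw [pow_succ] at h1
    linarith

theorem le_of_pow {a x Θ C : ℝ} (ha : 0 < a) (hΘ : 0 ≤ Θ)
    (h : ∀ j, 0 < j → a * x ^ j ≤ C * Θ ^ j) : x ≤ Θ := by
  by_contra! hc
  have hx : 0 < x := hΘ.trans_lt hc
  have h1 := (tendsto_pow_atTop_nhds_zero_of_lt_one (div_nonneg hΘ hx.le)
    ((div_lt_one hx).2 hc)).const_mul C
  rw [mul_zero] at h1
  obtain ⟨j, h2, h3⟩ := ((h1.eventually (gt_mem_nhds ha)).and (eventually_gt_atTop 0)).exists
  rw [div_pow, ← mul_div_assoc, div_lt_iff₀ (pow_pos hx j)] at h2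
  exact absurd (h j h3) (not_le.2 h2)

end PS

theorem st_PS : St_PS where
  recu S T α β h0 h1 h2 h3 h m hm := by
    have k1 : T 1 = -(α ^ 1 + β ^ 1) := by simpa [h0, h1] using (h 1).symm
    have k2 : T 2 = -(α ^ 2 + β ^ 2) := by
      have := h 2
      rw [sum_Icc_succ_top (by norm_num), Icc_self, sum_singleton, k1] at this
      simp only [Nat.reduceAdd, Nat.reduceSub, h0, h1, h2] at this
      push_cast at this
      linear_combination -this
    have key : ∀ n, T (n + 1) = -(α ^ (n + 1) + β ^ (n + 1)) ∧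
        T (n + 2) = -(α ^ (n + 2) + β ^ (n + 2)) := fun n => by
      induction n with
      | zero => exact ⟨k1, k2⟩
      | succ n ih =>
        refine ⟨ih.2, ?_⟩
        have := h (n + 3)
        rw [sum_Icc_succ_top (by omega), sum_Icc_succ_top (by omega), sum_Icc_succ_top (by omega),
          sum_eq_zero fun j hj => by rw [h3 _ (by have := (mem_Icc.1 hj).2; omega), mul_zero],
          h3 _ (by omega), show n + 3 - (n + 1) = 2 by omega,
          show n + 3 - (n + 1 + 1) = 1 by omega, show n + 3 - (n + 2 + 1) = 0 by omega, h0, h1, h2,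
          ih.1, ih.2] at this
        linear_combination -this
    obtain ⟨n, rfl⟩ := Nat.exists_eq_succ_of_ne_zero hm.ne'
    exact (key n).1
  bd ι s ω d C θ hd hθ h i hi := by
    classical
    obtain ⟨C', h'⟩ := PS.twist s (fun i => ω i ^ d) (θ ^ d) C
      (by simpa only [← pow_mul] using h) ((s.image fun i => ω i ^ d).erase (ω i ^ d))
    have h1 : (0 : ℝ) < #{i' ∈ s | ω i' ^ d = ω i ^ d} *
        ‖∏ μ ∈ (s.image fun i => ω i ^ d).erase (ω i ^ d), (ω i ^ d - μ)‖ :=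
      mul_pos (Nat.cast_pos.2 (card_pos.2 ⟨i, mem_filter.2 ⟨hi, rfl⟩⟩))
        (norm_pos_iff.2 (prod_ne_zero_iff.2 fun μ h => sub_ne_zero.2 (ne_of_mem_erase h).symm))
    have h2 := PS.le_of_pow (x := ‖ω i‖ ^ d) h1 (pow_nonneg hθ d) fun j hj => by
      refine le_of_eq_of_le ?_ (h' j hj)
      rw [← sum_filter_of_ne (p := fun i' => ω i' ^ d = ω i ^ d) fun i' hi' h => by
          by_contra hc
          exact h (by rw [prod_eq_zero (mem_erase.2 ⟨hc, mem_image.2 ⟨i', hi', rfl⟩⟩) (sub_self _),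
            zero_mul]),
        sum_congr rfl fun i' h => by rw [(mem_filter.1 h).2], sum_const, nsmul_eq_mul]
      simp [mul_assoc]
    exact le_of_pow_le_pow_left₀ hd.ne' hθ h2

end Pool.Agent.Lib.KW
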