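import Pool.Agent.Lib.KW.Blue
import Pool.Agent.Lib.PS.STEP1

/-! Stepanov's method over a finite field. -/

namespace Pool.Agent.Lib.KW

open Finset Polynomial Pool.Agent.Lib.PS

namespace STEP

variable {F : Type} [Field F]

theorem has_dvd (f g : F[X]) (N : ℕ) : ∀ k, f ^ (N - k) ∣ hasseDeriv k (f ^ N * g) := by
  induction N with
  | zero => simp
  | succ N ih =>
    intro k
    rw [pow_succ', mul_assoc, hasseDeriv_mul]
    refine dvd_sum fun q hq => ?_
    have e := mem_antidiagonal.1 hq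
    rcases Nat.eq_zero_or_pos q.1 with h | h
    · rw [h, hasseDeriv_zero']
      refine (pow_dvd_pow f (by omega : N + 1 - k ≤ N - q.2 + 1)).trans ?_
      rw [pow_succ']
      exact mul_dvd_mul_left f (ih _)
    · exact ((pow_dvd_pow f (by omega)).trans (ih q.2)).mul_left _

theorem has (f g : F[X]) (hf : f ≠ 0) (N k : ℕ) (hk : k ≤ N) : ∃ T : F[X],
    hasseDeriv k (f ^ N * g) = f ^ (N - k) * T ∧ T.natDegree ≤ g.natDegree + k * f.natDegree := by
  obtain ⟨T, h⟩ := has_dvd f g N k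
  refine ⟨T, h, ?_⟩
  rcases eq_or_ne T 0 with rfl | h0
  · simp
  have a := (natDegree_hasseDeriv_le (f ^ N * g) k).trans ((Nat.sub_le _ _).trans natDegree_mul_le)
  rw [h, natDegree_mul (pow_ne_zero _ hf) h0, natDegree_pow, natDegree_pow] at a
  obtain ⟨d, rfl⟩ := Nat.exists_eq_add_of_le hk
  rw [Nat.add_sub_cancel_left, add_mul] at a
  omega

theorem mult (G : F[X]) (x : F) (L : ℕ) (h : ∀ k < L, (hasseDeriv k G).eval x = 0) :
    (X - C x) ^ L ∣ G := by
  rw [X_sub_C_pow_dvd_iff, X_pow_dvd_iff]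
  intro k hk
  rw [← taylor_apply, taylor_coeff, h k hk]

variable [Fintype F]

theorem frob (x : F) {q L : ℕ} (hq : Fintype.card F = q) (hL : L ≤ q) (j : ℕ) :
    (X - C x) ^ L ∣ X ^ (j * q) - C x ^ j := by
  obtain ⟨p, hp⟩ := CharP.exists F
  obtain ⟨n, hn, e⟩ := FiniteField.card F p
  have : Fact p.Prime := ⟨hn⟩
  have e1 : (X - C x) ^ q = X ^ q - C x := by
    rw [← hq, e, sub_pow_char_pow, ← C_pow, ← e, FiniteField.pow_card]
  rw [mul_comm, pow_mul]
  exact (pow_dvd_pow _ hL).trans (e1 ▸ sub_dvd_pow_sub_pow _ _ _)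

theorem core (p c m L K : ℕ) (hq : Fintype.card F = p) (hpc : p = 2 * c + 1) (h : F[X])
    (h0 : h.coeff 0 ≠ 0) (hm : (X * h).natDegree ≤ m) (hLp : L ≤ p)
    (hK : L * (c + L * m + (K + 1)) < 2 * ((K + 1) * c)) (a : F) (S : Finset F)
    (hS : ∀ x ∈ S, (X * h).eval x = 0 ∨ (X * h).eval x ^ c = a) :
    S.card * L ≤ (L + c) * m + c + K * p := by
  classical
  set f := X * h with hf
  have hf0 : f ≠ 0 := by
    refine mul_ne_zero X_ne_zero ?_
    rintro rfl; simp at h0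
  have hT : ∀ (t : Fin 2) (i : Fin c) (k : Fin L), ∃ T : F[X],
      hasseDeriv k (f ^ (L + t * c) * X ^ (i : ℕ)) = f ^ (L + t * c - k) * T ∧
      T.natDegree ≤ i + k * m := by
    intro t i k
    obtain ⟨T, h1, h2⟩ := has f (X ^ (i : ℕ)) hf0 (L + t * c) k (by have := k.2; omega)
    refine ⟨T, h1, h2.trans ?_⟩
    rw [natDegree_X_pow]
    exact Nat.add_le_add_left (Nat.mul_le_mul_left _ hm) _
  choose T hT1 hT2 using hT
  obtain ⟨u, hu0, hu⟩ := step_dep (ι := Fin 2 × Fin (K + 1) × Fin c) L (c + L * m + (K + 1))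
    (fun y k => C (a ^ (y.1 : ℕ)) * T y.1 y.2.2 k * X ^ (y.2.1 : ℕ)) (by
      intro y k
      refine lt_of_le_of_lt natDegree_mul_le ?_
      have a1 := (natDegree_C_mul_le (a ^ (y.1 : ℕ)) (T y.1 y.2.2 k)).trans (hT2 y.1 y.2.2 k)
      have a2 := y.2.2.2
      have a3 := y.2.1.2
      have a4 : (k : ℕ) * m ≤ L * m := Nat.mul_le_mul_right _ k.2.le
      rw [natDegree_X_pow]
      omega) (by simpa using hK)
  let R : F[X] := ∑ y : Fin 2 × Fin (K + 1) × Fin c,
    C (u y) * (f ^ (L + y.1 * c) * X ^ (y.2.2 : ℕ) * X ^ ((y.2.1 : ℕ) * p))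
  have hR : R ≠ 0 := by
    intro hR
    have e : R = f ^ L * ((∑ y : Fin (K + 1) × Fin c, C (u (0, y)) * X ^ ((y.2 : ℕ) + (y.1 : ℕ) * p))
        + f ^ c * ∑ y : Fin (K + 1) × Fin c, C (u (1, y)) * X ^ ((y.2 : ℕ) + (y.1 : ℕ) * p)) := by
      simp only [R]
      rw [Fintype.sum_prod_type, Fin.sum_univ_two, mul_add, mul_sum, mul_sum, mul_sum]
      congr 1
      · refine sum_congr rfl fun y _ => ?_
        simp only [Fin.val_zero, zero_mul, add_zero]
        ring
      · refine sum_congr rfl fun y _ => ?_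
        simp only [Fin.val_one, one_mul]
        ring
    rw [hR] at e
    have e2 := (mul_eq_zero.1 e.symm).resolve_left (pow_ne_zero _ hf0)
    have c1 := step_coef p c (K + 1) (by omega) (fun y => u (0, y))
    have c2 := step_coef p c (K + 1) (by omega) (fun y => u (1, y))
    obtain ⟨z1, z2⟩ := step_nz p c (by omega) h _ _ h0 c1.1 c2.1 e2
    obtain ⟨⟨t, y⟩, hy⟩ := hu0
    fin_cases t
    · exact hy (c1.2 z1 y)
    · exact hy (c2.2 z2 y)
  have hdeg : R.natDegree ≤ (L + c) * m + c + K * p := by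
    refine natDegree_sum_le_of_forall_le _ _ fun y _ => ?_
    refine (natDegree_C_mul_le _ _).trans (natDegree_mul_le.trans ?_)
    have a1 : (f ^ (L + y.1 * c) * X ^ (y.2.2 : ℕ)).natDegree ≤ (L + c) * m + c := by
      refine natDegree_mul_le.trans (Nat.add_le_add ?_ ?_)
      · refine natDegree_pow_le.trans (Nat.mul_le_mul ?_ hm)
        have : (y.1 : ℕ) * c ≤ 1 * c := Nat.mul_le_mul_right _ (by have := y.1.2; omega)
        omega
      · rw [natDegree_X_pow]; exact y.2.2.2.le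
    have a2 : (y.2.1 : ℕ) * p ≤ K * p := Nat.mul_le_mul_right _ (by have := y.2.1.2; omega)
    rw [natDegree_X_pow]
    omega
  refine (step_mult R hR S L fun x hx => ?_).trans hdeg
  let G : F[X] := ∑ y : Fin 2 × Fin (K + 1) × Fin c,
    C (u y * x ^ (y.2.1 : ℕ)) * (f ^ (L + y.1 * c) * X ^ (y.2.2 : ℕ))
  have d1 : (X - C x) ^ L ∣ R - G := by
    simp only [R, G]
    rw [← sum_sub_distrib]
    refine dvd_sum fun y _ => ?_
    have := (frob x hq hLp (y.2.1 : ℕ)).mul_left (C (u y) * (f ^ (L + y.1 * c) * X ^ (y.2.2 : ℕ)))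
    rw [C_mul, C_pow]
    refine this.trans (dvd_of_eq ?_)
    ring
  refine (le_rootMultiplicity_iff hR).2 ?_
  rw [← sub_add_cancel R G]
  refine dvd_add d1 (mult G x L fun k hk' => ?_)
  have e : (hasseDeriv k G).eval x = ∑ y : Fin 2 × Fin (K + 1) × Fin c,
      u y * (f.eval x ^ (L + y.1 * c - k) * (T y.1 y.2.2 ⟨k, hk'⟩).eval x * x ^ (y.2.1 : ℕ)) := by
    simp only [G]
    rw [map_sum, eval_finsetSum]
    refine sum_congr rfl fun y _ => ?_
    rw [← smul_eq_C_mul, map_smul, hT1 y.1 y.2.2 ⟨k, hk'⟩]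
    simp only [eval_smul, eval_mul, eval_pow, smul_eq_mul]
    ring
  rw [e]
  rcases hS x hx with h1 | h1
  · refine sum_eq_zero fun y _ => ?_
    rw [h1, zero_pow (by omega)]
    simp
  · have e3 := congrArg (eval x) (hu ⟨k, hk'⟩)
    rw [eval_finsetSum, eval_zero] at e3
    have e4 : ∀ y : Fin 2 × Fin (K + 1) × Fin c,
        u y * (f.eval x ^ (L + y.1 * c - k) * (T y.1 y.2.2 ⟨k, hk'⟩).eval x * x ^ (y.2.1 : ℕ))
        = f.eval x ^ (L - k) * eval x (C (u y) *
          (C (a ^ (y.1 : ℕ)) * T y.1 y.2.2 ⟨k, hk'⟩ * X ^ (y.2.1 : ℕ))) := by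
      intro y
      have : L + y.1 * c - k = (L - k) + c * y.1 := by rw [mul_comm c]; omega
      rw [this, pow_add, pow_mul, h1]
      simp only [eval_mul, eval_C, eval_pow, eval_X]
      ring
    rw [sum_congr rfl fun y _ => e4 y, ← mul_sum, e3, mul_zero]

theorem card (p m : ℕ) (hq : Fintype.card F = p) (hpc : p = 2 * (p / 2) + 1) (h : F[X])
    (h0 : h.coeff 0 ≠ 0) (hm : (X * h).natDegree ≤ m) (hm1 : 1 ≤ m) (hmp : 64 * m ^ 2 ≤ p)
    (a : F) (S : Finset F)
    (hS : ∀ x ∈ S, (X * h).eval x = 0 ∨ (X * h).eval x ^ (p / 2) = a) :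
    S.card ≤ p / 2 + 4 * m * p.sqrt := by
  set c := p / 2 with hc
  set s := p.sqrt with hs
  have s1 : s * s ≤ p := Nat.sqrt_le p
  have s2 : p < (s + 1) * (s + 1) := Nat.lt_succ_sqrt p
  have s3 : 8 * m ≤ s := Nat.le_sqrt.2 (by nlinarith)
  have s4 : s < 2 * c := by nlinarith
  have hd : 0 < 2 * c - s := by omega
  set K := s * (c + s * m) / (2 * c - s) with hK
  have k1 : K * (2 * c - s) ≤ s * (c + s * m) := Nat.div_mul_le_self _ _
  have k2 : s * (c + s * m) < (K + 1) * (2 * c - s) := by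
    rw [mul_comm (K + 1)]
    exact Nat.lt_mul_div_succ _ hd
  refine step_num p c m s K _ hpc s2 s1 hm1 s3 k1 ?_
  refine core p c m s K hq hpc h h0 hm (by omega) ?_ a S hS
  obtain ⟨d, hd⟩ : ∃ d, 2 * c = s + d := ⟨2 * c - s, by omega⟩
  have hd' : 2 * c - s = d := by omega
  rw [hd'] at k2
  have : 2 * ((K + 1) * c) = (K + 1) * s + (K + 1) * d := by
    rw [← mul_add, ← hd]; ring
  nlinarith

theorem half [DecidableEq F] (p m : ℕ) (hq : Fintype.card F = p) (hch : ringChar F ≠ 2)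
    (h : F[X])
    (h0 : h.coeff 0 ≠ 0) (hm : (X * h).natDegree ≤ m) (hm1 : 1 ≤ m)
    (hmp : 64 * m ^ 2 ≤ p) (e : ℤ) (he : e = 1 ∨ e = -1) :
    e * ∑ x : F, quadraticChar F ((X * h).eval x)
      ≤ 8 * m * (p.sqrt : ℤ) := by
  have hpc : p = 2 * (p / 2) + 1 := by have := FiniteField.odd_card_of_char_ne_two hch; omega
  set f := X * h with hf
  let S : Finset F := univ.filter fun x => quadraticChar F (f.eval x) ≠ -e
  have hS := card p m hq hpc h h0 hm hm1 hmp (e : F) S (by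
    intro x hx
    have hx' := (mem_filter.1 hx).2
    by_cases h1 : f.eval x = 0
    · exact Or.inl h1
    right
    have h2 := quadraticChar_eq_pow_of_char_ne_two' hch (f.eval x)
    rw [hq] at h2
    rw [← h2]
    congr 1
    rcases quadraticChar_dichotomy h1 with h3 | h3 <;> rcases he with h4 | h4 <;> omega)
  have h1 : ∀ x : F, e * quadraticChar F (f.eval x)
      ≤ 2 * (if quadraticChar F (f.eval x) ≠ -e then 1 else 0) - 1 := by
    intro x
    by_cases h1 : f.eval x = 0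
    · rw [h1, quadraticChar_zero]
      rcases he with rfl | rfl <;> simp
    · rcases quadraticChar_dichotomy h1 with h3 | h3 <;> rcases he with rfl | rfl <;>
        simp [h3]
  rw [mul_sum]
  refine (sum_le_sum fun x _ => h1 x).trans ?_
  rw [sum_sub_distrib, ← mul_sum, sum_boole]
  simp only [sum_const, card_univ, hq, nsmul_eq_mul, mul_one]
  have h2 : ((S.card : ℕ) : ℤ) ≤ ((p / 2 + 4 * m * p.sqrt : ℕ) : ℤ) := by exact_mod_cast hS
  have h3 : (p : ℤ) = 2 * ((p / 2 : ℕ) : ℤ) + 1 := by exact_mod_cast hpc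
  rw [Nat.cast_add, Nat.cast_mul, Nat.cast_mul] at h2
  change 2 * ((S.card : ℕ) : ℤ) - p ≤ _
  generalize (p / 2) = c at h2 h3
  nlinarith

end STEP

theorem st_STEP : St_STEP := fun F _ _ _ hch h m h0 hm hm1 hq => by
  have a1 := STEP.half _ m rfl hch h h0 hm hm1 hq 1 (Or.inl rfl)
  have a2 := STEP.half _ m rfl hch h h0 hm hm1 hq (-1) (Or.inr rfl)
  exact abs_le.2 ⟨by linarith, by linarith⟩

end Pool.Agent.Lib.KW
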