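import Pool.Agent.Lib.KW.B_DEG

/-! Block TW: the bound for the sum over all twists. -/

open Finset Polynomial

noncomputable section

namespace Pool.Agent.Lib.KW

theorem st_TW (hS : St_STEP) (hC : St_CNT) : St_TW := by
  intro p hp h2 a b ha hb
  classical
  have p3 : 3 ≤ p := by
    have := hp.out.two_le
    omega
  have hu : ¬ IsUnit ((X ^ p - X) ^ 2 - C (4 * (a * b)) : (ZMod p)[X]) := by
    refine not_isUnit_of_natDegree_pos _ ?_
    rw [natDegree_sub_C, natDegree_pow, FiniteField.X_pow_card_sub_X_natDegree_eq _ (by omega)]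
    omega
  obtain ⟨P, h1, h3, h4⟩ := exists_monic_irreducible_factor _ hu
  refine ⟨8 * P.natDegree, 1 + 16 * p, Nat.mul_pos (by norm_num) h3.natDegree_pos, ?_⟩
  intro F _ _ _ _ hd
  have : CharP F p := charP_of_injective_algebraMap (algebraMap (ZMod p) F).injective p
  have hF : ringChar F ≠ 2 := by rwa [ringChar.eq F p]
  have f2 : (2 : F) ≠ 0 := Ring.two_ne_zero hF
  obtain ⟨y, hy⟩ : ∃ y : F, minpoly (ZMod p) y = P := by
    have h5 := DEG.card_roots (F := F) h1 h3 (Dvd.dvd.trans (dvd_mul_left _ _) hd)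
    obtain ⟨y, hy⟩ := card_pos.1 (h5.symm ▸ h3.natDegree_pos)
    exact ⟨y, (mem_filter.1 hy).2⟩
  have h5 : (y ^ p - y) ^ 2 = 4 * algebraMap (ZMod p) F (a * b) := by
    have h6 := aeval_eq_zero_of_dvd_aeval_eq_zero h4 (hy ▸ minpoly.aeval (ZMod p) y)
    simp only [map_sub, map_pow, aeval_X, aeval_C] at h6
    rw [sub_eq_zero.1 h6, map_mul, map_ofNat]
  have h6 : y ^ p - y ≠ 0 := fun e ↦ by
    rw [e, zero_pow two_ne_zero, show (4 : F) = 2 * 2 by norm_num] at h5
    exact mul_ne_zero (mul_ne_zero f2 f2) ((_root_.map_ne_zero _).2 (mul_ne_zero ha hb)) h5.symm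
  have hc : Fintype.card F = p ^ Module.finrank (ZMod p) F :=
    (FiniteField.pow_finrank_eq_card p F).symm
  have h7 : 8 ≤ Module.finrank (ZMod p) F :=
    le_trans (Nat.le_mul_of_pos_right 8 h3.natDegree_pos) (Nat.le_of_dvd Module.finrank_pos hd)
  have h8 := hS F hF ((X ^ (p - 1) - 1) * (X ^ p - X + C (2 * (y ^ p - y)))) (2 * p) ?_ ?_
    (by omega) ?_
  · rw [hC p F h2 a b ha hb, ← Equiv.sum_comp (Equiv.addLeft y)]
    have h9 : ∀ x : F, ((Equiv.addLeft y x) ^ p - Equiv.addLeft y x) ^ 2 -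
        4 * algebraMap (ZMod p) F (a * b) =
        (X * ((X ^ (p - 1) - 1) * (X ^ p - X + C (2 * (y ^ p - y))))).eval x := fun x ↦ by
      have e : x ^ p = x * x ^ (p - 1) := by rw [← pow_succ', Nat.sub_add_cancel (by omega)]
      simp only [Equiv.coe_addLeft, eval_mul, eval_sub, eval_add, eval_pow, eval_X, eval_C,
        eval_one]
      rw [← h5, add_pow_char, e]
      ring
    simp only [h9]
    have e1 : √(p : ℝ) ^ Module.finrank (ZMod p) F = √(Fintype.card F : ℝ) := by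
      rw [hc, Nat.cast_pow, Real.sqrt_eq_rpow, Real.sqrt_eq_rpow, ← Real.rpow_natCast,
        ← Real.rpow_natCast, ← Real.rpow_mul (Nat.cast_nonneg p),
        ← Real.rpow_mul (Nat.cast_nonneg p), mul_comm]
    have e2 : ((Fintype.card F).sqrt : ℝ) ≤ √(Fintype.card F : ℝ) := Real.nat_sqrt_le_real_sqrt
    have e3 : (1 : ℝ) ≤ √(Fintype.card F : ℝ) :=
      Real.one_le_sqrt.2 (by exact_mod_cast Fintype.card_pos)
    refine (norm_add_le _ _).trans ?_
    rw [e1, norm_one, Complex.norm_intCast, ← Int.cast_abs]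
    have e4 := (Int.cast_le (R := ℝ)).2 h8
    have e5 : (0 : ℝ) ≤ p := Nat.cast_nonneg p
    push_cast at e4 ⊢
    nlinarith [mul_le_mul_of_nonneg_left e2 e5]
  · rw [coeff_zero_eq_eval_zero]
    simp only [eval_mul, eval_sub, eval_add, eval_pow, eval_X, eval_C, eval_one,
      zero_pow (show p - 1 ≠ 0 by omega), zero_pow (show p ≠ 0 by omega)]
    simp [f2, h6]
  · have e1 : (X ^ (p - 1) - 1 : F[X]).natDegree ≤ p - 1 := by compute_degree
    have e2 : (X ^ p - X + C (2 * (y ^ p - y)) : F[X]).natDegree ≤ p := by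
      rw [natDegree_add_C]
      exact (natDegree_sub_le _ _).trans (by simp; omega)
    have e3 := natDegree_mul_le.trans (add_le_add e1 e2)
    have e4 := natDegree_mul_le.trans (add_le_add (natDegree_X_le (R := F)) e3)
    omega
  · rw [hc]
    refine le_trans ?_ (Nat.pow_le_pow_right (by omega) h7)
    have e1 : 3 ^ 6 ≤ p ^ 6 := Nat.pow_le_pow_left p3 6
    calc 64 * (2 * p) ^ 2 = 256 * p ^ 2 := by ring
      _ ≤ p ^ 6 * p ^ 2 := Nat.mul_le_mul_right _ (le_trans (by norm_num) e1)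
      _ = p ^ 8 := by ring

end Pool.Agent.Lib.KW
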