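import Pool.Agent.Lib.KW.B_CHI
import Pool.Agent.Lib.KW.B_CNT
import Pool.Agent.Lib.KW.B_DEG
import Pool.Agent.Lib.KW.B_MULT
import Pool.Agent.Lib.KW.B_PP
import Pool.Agent.Lib.KW.B_PRIME
import Pool.Agent.Lib.KW.B_PS
import Pool.Agent.Lib.KW.B_STEP
import Pool.Agent.Lib.KW.B_TW

/-! The Weil bound for Kloosterman sums, assembled (a known result, used as a tool). -/

namespace Pool.Agent.Lib.KW

theorem kw_prime : St_PRIME :=
  st_PRIME (st_TW st_STEP st_CNT) st_CHI st_TR (st_NEWT st_DEG) st_PS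

theorem kw : St_KW := st_KW (st_PP kw_prime)

end Pool.Agent.Lib.KW
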