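import Pool.Agent.Lib.KW.B_DEG

/-! Blocks CHI and TR: the character on monic polynomials. -/

open Finset Polynomial

noncomputable section

namespace Pool.Agent.Lib.KW

namespace CHI

open DEG

variable {p : ℕ} [Fact p.Prime]

theorem chi_one (a b : ZMod p) : chi p a b 1 = 1 := by
  simp [chi, coeff_one, nextCoeff]

theorem chi_mul (a b : ZMod p) (f g : (ZMod p)[X]) (hf : f.Monic) (hg : g.Monic) :
    chi p a b (f * g) = chi p a b f * chi p a b g := by
  unfold chi
  rw [mul_coeff_zero, mul_coeff_one, hf.nextCoeff_mul hg]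
  by_cases h1 : f.coeff 0 = 0
  · simp [h1]
  by_cases h2 : g.coeff 0 = 0
  · simp [h2]
  rw [if_neg (mul_ne_zero h1 h2), if_neg h1, if_neg h2, ← AddChar.map_add_eq_mul]
  congr 1
  field_simp
  ring

theorem mk_next {n : ℕ} (c : Fin (n + 1) → ZMod p) : (mk c).nextCoeff = c (Fin.last n) := by
  rw [nextCoeff_of_natDegree_pos (by rw [(mk_spec c).2]; omega), (mk_spec c).2, ← mk_coeff c]
  rfl

theorem chi_mk (a b : ZMod p) {n : ℕ} (c : Fin (n + 2) → ZMod p) : chi p a b (mk c) =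
    if c 0 = 0 then 0 else ZMod.stdAddChar (-(a * c (Fin.last (n + 1))) - b * (c 1 / c 0)) := by
  have h0 : (mk c).coeff 0 = c 0 := mk_coeff c 0
  have h1 : (mk c).coeff 1 = c 1 := mk_coeff c 1
  rw [chi, mk_next, h0, h1]

theorem s1 (a b : ZMod p) : SS p (chi p a b) 1 = Kl p a b := by
  have h : ∀ c : Fin 1 → ZMod p, chi p a b (mk c) =
      if -c 0 = 0 then 0 else ZMod.stdAddChar (a * -c 0 + b * (-c 0)⁻¹) := fun c ↦ by
    have h0 : (mk c).coeff 0 = c 0 := mk_coeff c 0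
    have h1 : (mk c).coeff 1 = 1 := by
      have := (mk_spec c).1.coeff_natDegree
      rwa [(mk_spec c).2] at this
    rw [chi, mk_next, h0, h1]
    simp only [neg_eq_zero]
    congr 2
    rw [inv_neg, one_div]
    change -(a * c 0) - _ = _
    ring
  change ∑ c : Fin 1 → ZMod p, chi p a b (mk c) = _
  rw [Kl, Fintype.sum_equiv ((Equiv.funUnique (Fin 1) (ZMod p)).trans (Equiv.neg _))
    (fun c ↦ chi p a b (mk c))
      (fun x : ZMod p ↦ if x = 0 then 0 else ZMod.stdAddChar (a * x + b * x⁻¹)) h]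
  simp only [← ite_not (_ = (0 : ZMod p))]
  rw [← sum_filter]
  refine (sum_bij (fun (x : (ZMod p)ˣ) _ ↦ (x : ZMod p)) (fun x _ ↦ ?_) (fun x _ y _ e ↦ ?_)
    (fun x hx ↦ ?_) fun x _ ↦ ?_).symm
  · exact mem_filter.2 ⟨mem_univ _, x.ne_zero⟩
  · exact Units.ext e
  · exact ⟨Units.mk0 x (mem_filter.1 hx).2, mem_univ _, rfl⟩
  · rw [Units.val_inv_eq_inv_val]

theorem s2 (a b : ZMod p) (ha : a ≠ 0) (hb : b ≠ 0) : SS p (chi p a b) 2 = p := by
  change ∑ c : Fin 2 → ZMod p, chi p a b (mk c) = _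
  rw [Fintype.sum_equiv (piFinTwoEquiv fun _ ↦ ZMod p) (fun c ↦ chi p a b (mk c))
    (fun x : ZMod p × ZMod p ↦ if x.1 = 0 then 0 else
      ZMod.stdAddChar (-(a * x.2) - b * (x.2 / x.1))) fun c ↦ chi_mk a b c,
    Fintype.sum_prod_type, sum_eq_single (-b / a)]
  · have h : -b / a ≠ 0 := div_ne_zero (neg_ne_zero.2 hb) ha
    have h1 : ∀ y : ZMod p, -(a * y) - b * (y / (-b / a)) = 0 := fun y ↦ by
      field_simp
      ring
    simp [h, h1]
  · intro x _ hx
    by_cases h : x = 0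
    · simp [h]
    have h1 : ∀ y : ZMod p, -(a * y) - b * (y / x) = y * (-a - b / x) := fun y ↦ by ring
    have h2 : -a - b / x ≠ 0 := fun e ↦ hx (by
      field_simp at e ⊢
      linear_combination -e)
    simp only [if_neg h, h1]
    rw [AddChar.sum_mulShift _ (ZMod.isPrimitive_stdAddChar p), if_neg h2, Nat.cast_zero]
  · simp

theorem s3 (a b : ZMod p) (ha : a ≠ 0) (n : ℕ) (hn : 3 ≤ n) : SS p (chi p a b) n = 0 := by
  obtain ⟨n, rfl⟩ : ∃ k, n = k + 1 + 2 := ⟨n - 3, by omega⟩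
  change ∑ c : Fin (n + 1 + 2) → ZMod p, chi p a b (mk c) = _
  have h0 : (0 : Fin (n + 1 + 2)) ≠ Fin.last (n + 1 + 1) := fun e ↦ by
    simpa using congrArg Fin.val e
  have h1 : (1 : Fin (n + 1 + 2)) ≠ Fin.last (n + 1 + 1) := fun e ↦ by
    simpa using congrArg Fin.val e
  have h2 : ∀ c : Fin (n + 1 + 2) → ZMod p,
      chi p a b (mk (c + Pi.single (Fin.last (n + 1 + 1)) 1)) =
        ZMod.stdAddChar (-a) * chi p a b (mk c) := fun c ↦ by
    rw [chi_mk, chi_mk]
    simp only [Pi.add_apply, Pi.single_eq_of_ne h0, Pi.single_eq_of_ne h1, Pi.single_eq_same,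
      add_zero]
    split_ifs
    · rw [mul_zero]
    · rw [← AddChar.map_add_eq_mul]
      congr 1
      ring
  have h3 := Equiv.sum_comp (Equiv.addRight (Pi.single (Fin.last (n + 1 + 1)) 1 :
    Fin (n + 1 + 2) → ZMod p)) fun c ↦ chi p a b (mk c)
  simp only [Equiv.coe_addRight, h2, ← mul_sum] at h3
  have h4 : ZMod.stdAddChar (-a) ≠ 1 := fun e ↦
    neg_ne_zero.2 ha (((ZMod.isPrimitive_stdAddChar p).zmod_char_eq_one_iff p _).1 e)
  exact (mul_left_eq_self₀.1 h3).resolve_left h4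

variable {F : Type} [Field F] [Fintype F] [Algebra (ZMod p) F]

omit [Fintype F] in
theorem dvd_rev {x : F} (hx : x ≠ 0) : minpoly (ZMod p) x ∣ (minpoly (ZMod p) x⁻¹).reverse := by
  refine minpoly.dvd _ _ ?_
  let _ : Invertible x⁻¹ := invertibleOfNonzero (inv_ne_zero hx)
  have h := (eval₂_reverse_eq_zero_iff (algebraMap (ZMod p) F) x⁻¹ (minpoly (ZMod p) x⁻¹)).2
    (minpoly.aeval _ _)
  rwa [invOf_eq_inv, inv_inv] at h

theorem deg_le {x : F} (hx : x ≠ 0) :
    (minpoly (ZMod p) x).natDegree ≤ (minpoly (ZMod p) x⁻¹).natDegree :=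
  (natDegree_le_of_dvd (dvd_rev hx)
    (mt reverse_eq_zero.1 (minpoly.ne_zero (int _)))).trans (reverse_natDegree_le _)

theorem deg_inv {x : F} (hx : x ≠ 0) :
    (minpoly (ZMod p) x⁻¹).natDegree = (minpoly (ZMod p) x).natDegree :=
  le_antisymm (by simpa using deg_le (p := p) (inv_ne_zero hx)) (deg_le hx)

theorem next_inv {x : F} (hx : x ≠ 0) : (minpoly (ZMod p) x).coeff 1 /
    (minpoly (ZMod p) x).coeff 0 = (minpoly (ZMod p) x⁻¹).nextCoeff := by
  have h := eq_leadingCoeff_mul_of_monic_of_dvd_of_natDegree_le (minpoly.monic (int x))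
    (dvd_rev (p := p) hx) ((reverse_natDegree_le _).trans (deg_inv hx).le)
  have h0 := coeff_zero_reverse (minpoly (ZMod p) x⁻¹)
  have h1 := coeff_one_reverse (minpoly (ZMod p) x⁻¹)
  rw [h, coeff_C_mul] at h0 h1
  rw [(minpoly.monic (int _)).leadingCoeff] at h0
  rw [div_eq_iff (right_ne_zero_of_mul_eq_one h0), ← h1]
  linear_combination (-(minpoly (ZMod p) x).coeff 1) * h0

theorem tr_eq (x : F) : Algebra.trace (ZMod p) F x =
    (Module.finrank (ZMod p) F / (minpoly (ZMod p) x).natDegree : ℕ) *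
      -(minpoly (ZMod p) x).nextCoeff := by
  rw [trace_eq_finrank_mul_minpoly_nextCoeff,
    ← Module.finrank_mul_finrank (ZMod p) (IntermediateField.adjoin (ZMod p) {x}) F,
    IntermediateField.adjoin.finrank (int x),
    Nat.mul_div_cancel_left _ (minpoly.natDegree_pos (int x))]

theorem chi_pow (a b : ZMod p) {f : (ZMod p)[X]} (hf : f.Monic) (r : ℕ) :
    chi p a b (f ^ r) = chi p a b f ^ r := by
  induction r with
  | zero => rw [pow_zero, pow_zero, chi_one]
  | succ r ih => rw [pow_succ, pow_succ, chi_mul a b _ _ (hf.pow r) hf, ih]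

end CHI

theorem st_CHI : St_CHI where
  one _ _ := CHI.chi_one
  mul _ _ := CHI.chi_mul
  s0 p _ a b := by simp [SS, CHI.chi_one]
  s1 _ _ := CHI.s1
  s2 _ _ := CHI.s2
  s3 _ _ := CHI.s3

open DEG CHI in
theorem st_TR : St_TR := by
  intro p _ F _ _ _ _ a b
  rw [KF, ← add_sum_erase univ _ (mem_univ (0 : F))]
  have h0 : chi p a b (cp p (Module.finrank (ZMod p) F) (0 : F)) = 0 := by
    rw [cp, chi_pow a b (minpoly.monic (int _)), minpoly.zero, natDegree_X, Nat.div_one, chi,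
      if_pos coeff_X_zero, zero_pow Module.finrank_pos.ne']
  rw [h0, zero_add]
  refine sum_congr rfl fun x hx ↦ ?_
  have h1 : x ≠ 0 := (mem_erase.1 hx).1
  rw [cp, chi_pow a b (minpoly.monic (int _)), chi,
    if_neg (minpoly.coeff_zero_ne_zero (int x) h1), ← AddChar.map_nsmul_eq_pow, next_inv h1,
    map_add, ← Algebra.smul_def, ← Algebra.smul_def, LinearMap.map_smul, LinearMap.map_smul,
    tr_eq x, tr_eq x⁻¹, deg_inv h1]
  congr 1
  simp only [nsmul_eq_mul, smul_eq_mul]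
  ring

end Pool.Agent.Lib.KW
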