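import Mathlib

/-! Kloosterman sums to prime power moduli. -/

open Finset

set_option linter.unusedSectionVars false

noncomputable section

namespace Pool.Agent.Lib.KW.PP

section ring
variable {R : Type} [CommRing R] [Fintype R] [DecidableEq R] {ψ : AddChar R ℂ}

/-- The Kloosterman sum. -/
def kl (ψ : AddChar R ℂ) (u v : R) : ℂ := ∑ x : Rˣ, ψ (u * (x : R) + v * ((x⁻¹ : Rˣ) : R))

/-- The number of elements killed by `c`. -/
def ann (c : R) : ℕ := #{h : R | c * h = 0}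

theorem quad_le (hψ : ψ.IsPrimitive) (A B : R) :
    ‖∑ z : R, ψ (A * z + B * z ^ 2)‖ ^ 2 ≤ Fintype.card R * ann (2 * B) := by
  have h1 : ((‖∑ z : R, ψ (A * z + B * z ^ 2)‖ ^ 2 : ℝ) : ℂ) =
      ∑ h : R, ψ (A * h + B * h ^ 2) * ∑ z : R, ψ (z * (2 * B * h)) := by
    rw [Complex.ofReal_pow, ← Complex.mul_conj', map_sum, sum_mul_sum, sum_comm]
    simp only [mul_sum]
    rw [sum_comm (f := fun h z => ψ (A * h + B * h ^ 2) * ψ (z * (2 * B * h)))]
    refine sum_congr rfl fun z _ => ?_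
    rw [← Equiv.sum_comp (Equiv.addRight z)]
    refine sum_congr rfl fun h _ => ?_
    rw [← AddChar.map_neg_eq_conj, ← ψ.map_add_eq_mul, ← ψ.map_add_eq_mul, Equiv.coe_addRight]
    congr 1
    ring
  have h2 := congrArg norm h1
  rw [Complex.norm_real, Real.norm_of_nonneg (by positivity)] at h2
  rw [h2, ann, card_filter, Nat.cast_sum, mul_sum]
  refine (norm_sum_le _ _).trans (sum_le_sum fun h _ => ?_)
  rw [norm_mul, AddChar.norm_apply, one_mul, AddChar.sum_mulShift _ hψ]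
  split_ifs <;> simp

theorem quad_zero (hψ : ψ.IsPrimitive) {A B e : R} (h : B * e = 0) (h' : A * e ≠ 0) :
    ∑ z : R, ψ (A * z + B * z ^ 2) = 0 := by
  obtain ⟨r, hr⟩ := DFunLike.ne_iff.1 (hψ h')
  rw [AddChar.mulShift_apply, AddChar.one_apply] at hr
  have h1 : ∑ z : R, ψ (A * z + B * z ^ 2) = ψ (A * e * r) * ∑ z : R, ψ (A * z + B * z ^ 2) := by
    rw [mul_sum, ← Equiv.sum_comp (Equiv.addRight (e * r))]
    refine sum_congr rfl fun z _ => ?_
    rw [← ψ.map_add_eq_mul, Equiv.coe_addRight]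
    congr 1
    linear_combination (2 * z * r + e * r ^ 2) * h
  by_contra h2
  exact hr (mul_right_cancel₀ h2 (h1.symm.trans (one_mul _).symm))

/-- Averaging over the units `1 + ϖ z`. -/
theorem avg {u v ϖ : R} (h1 : ∀ z, IsUnit (1 + ϖ * z)) (h2 : v * ϖ ^ 3 = 0) :
    Fintype.card R * kl ψ u v = ∑ y : Rˣ, ψ (u * (y : R) + v * ((y⁻¹ : Rˣ) : R)) *
      ∑ z : R, ψ ((u * y - v * (y⁻¹ : Rˣ)) * ϖ * z + v * (y⁻¹ : Rˣ) * ϖ ^ 2 * z ^ 2) := by
  simp only [mul_sum]
  rw [sum_comm, ← nsmul_eq_mul, ← card_univ, ← sum_const]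
  refine sum_congr rfl fun z _ => ?_
  rw [kl, ← Equiv.sum_comp (Equiv.mulRight (h1 z).unit)]
  refine sum_congr rfl fun y _ => ?_
  rw [← ψ.map_add_eq_mul, Equiv.coe_mulRight, mul_inv, Units.val_mul, Units.val_mul]
  have h3 := (h1 z).mul_val_inv
  rw [IsUnit.unit_spec]
  generalize (((h1 z).unit⁻¹ : Rˣ) : R) = t at h3
  congr 1
  linear_combination (y⁻¹ : Rˣ) * v * (1 - ϖ * z + ϖ ^ 2 * z ^ 2) * h3 -
    (y⁻¹ : Rˣ) * z ^ 3 * t * h2

theorem card_shift (c y : R) : #{x : Rˣ | c * (x - y) = 0} ≤ ann c :=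
  card_le_card_of_injOn (fun x => (x : R) - y) (fun x hx => by simpa using hx)
    fun _ _ _ _ h => Units.ext (sub_left_injective h)

theorem card_crit (ht : ∀ a b : R, a ∣ b ∨ b ∣ a) (u v e : R) :
    #{y : Rˣ | (u * y - v * (y⁻¹ : Rˣ)) * e = 0} ≤ 2 * ann (2 * v * e) := by
  rcases (filter (fun y : Rˣ => (u * y - v * (y⁻¹ : Rˣ)) * e = 0) univ).eq_empty_or_nonempty
    with h | ⟨y₀, h0⟩
  · simp [h]
  refine (card_le_card fun y h => ?_).trans ((card_union_le _ _).trans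
    ((add_le_add (card_shift (2 * v * e) y₀) (card_shift (2 * v * e) (-y₀))).trans (by omega)))
  simp only [mem_filter, mem_univ, true_and, mem_union] at h h0 ⊢
  have a1 := y.mul_inv
  have a2 := y₀.mul_inv
  generalize ((y⁻¹ : Rˣ) : R) = s at h a1
  generalize ((y₀⁻¹ : Rˣ) : R) = t at h0 a2
  have a3 : v * e * ((y - y₀) * (y + y₀)) = 0 := by
    linear_combination (y₀ : R) ^ 2 * y * h - (y : R) ^ 2 * y₀ * h0 + v * e * y₀ ^ 2 * a1 -
      v * e * y ^ 2 * a2
  rcases ht (y - y₀) (y + y₀) with ⟨c, hc⟩ | ⟨c, hc⟩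
  · right
    linear_combination (1 + c) * s * a3 + v * e * (y + y₀) * s * hc - 2 * v * e * (y + y₀) * a1
  · left
    linear_combination (1 + c) * s * a3 + v * e * (y - y₀) * s * hc - 2 * v * e * (y - y₀) * a1

theorem ann_unit {c w : R} (hw : IsUnit w) : ann (w * c) = ann c := by
  simp only [ann, mul_assoc, hw.mul_right_eq_zero]

/-- Stationary phase. -/
theorem phase (hψ : ψ.IsPrimitive) (ht : ∀ a b : R, a ∣ b ∨ b ∣ a) {u v ϖ e : R}
    (h1 : ∀ z, IsUnit (1 + ϖ * z)) (h2 : v * ϖ ^ 3 = 0) (h3 : v * ϖ ^ 2 * e = 0) :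
    Fintype.card R * ‖kl ψ u v‖ ≤
      2 * ann (2 * v * (ϖ * e)) * √(Fintype.card R * ann (2 * v * ϖ ^ 2)) := by
  have h4 := congrArg norm (avg (ψ := ψ) (u := u) h1 h2)
  rw [norm_mul, Complex.norm_natCast] at h4
  rw [h4, ← sum_subset (filter_subset (fun y : Rˣ => (u * y - v * (y⁻¹ : Rˣ)) * (ϖ * e) = 0) univ)
    fun y _ hy => ?_]
  · refine (norm_sum_le _ _).trans ((sum_le_card_nsmul _ _
      √(Fintype.card R * ann (2 * v * ϖ ^ 2)) fun y _ => ?_).trans ?_)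
    · rw [norm_mul, AddChar.norm_apply, one_mul]
      refine Real.le_sqrt_of_sq_le ((quad_le hψ _ _).trans (le_of_eq ?_))
      rw [← ann_unit (c := 2 * v * ϖ ^ 2) y⁻¹.isUnit]
      congr 3
      ring
    · rw [nsmul_eq_mul]
      gcongr
      exact_mod_cast card_crit ht u v (ϖ * e)
  · rw [quad_zero hψ (e := e) (by linear_combination (y⁻¹ : Rˣ) * h3)
      (by simpa only [mul_assoc, mem_filter, mem_univ, true_and] using hy), mul_zero]

/-- The degenerate case. -/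
theorem vanish (hψ : ψ.IsPrimitive) {u v ϖ : R} (h1 : ∀ z, IsUnit (1 + ϖ * z)) (h2 : v * ϖ = 0)
    (h3 : u * ϖ ≠ 0) : kl ψ u v = 0 := by
  have h4 := avg (ψ := ψ) (u := u) h1 (show v * ϖ ^ 3 = 0 by linear_combination ϖ ^ 2 * h2)
  rw [sum_eq_zero fun y _ => ?_] at h4
  · exact (mul_eq_zero.1 h4).resolve_left (Nat.cast_ne_zero.2 Fintype.card_ne_zero)
  · rw [quad_zero hψ (e := 1) (by linear_combination (y⁻¹ : Rˣ) * ϖ * h2) fun h => h3 ?_, mul_zero]
    refine y.isUnit.mul_right_eq_zero.1 ?_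
    linear_combination h + (y⁻¹ : Rˣ) * h2

theorem kl_triv (u v : R) : ‖kl ψ u v‖ ≤ Fintype.card R := by
  refine (norm_sum_le _ _).trans ?_
  simp only [AddChar.norm_apply, sum_const, card_univ, nsmul_eq_mul, mul_one, Nat.cast_le]
  exact Fintype.card_le_of_injective _ Units.val_injective

end ring

open ZMod

theorem ann_le {n : ℕ} [NeZero n] {c : ℕ} (hc : 0 < c) : ann (c : ZMod n) ≤ c := by
  simpa only [ann, nsmul_eq_mul] using IsAddCyclic.card_nsmul_eq_zero_le (α := ZMod n) hc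

theorem std_down {m d : ℕ} [NeZero m] [NeZero (d * m)] (t : ZMod (d * m)) :
    stdAddChar (t * (d : ZMod (d * m))) = stdAddChar (castHom (dvd_mul_left m d) (ZMod m) t) := by
  obtain ⟨k, rfl⟩ := ZMod.intCast_surjective t
  have h : (d : ℂ) ≠ 0 := Nat.cast_ne_zero.2 (left_ne_zero_of_mul (NeZero.ne (d * m)))
  rw [map_intCast, ← Int.cast_natCast, ← Int.cast_mul, stdAddChar_coe, stdAddChar_coe]
  congr 1
  push_cast
  field_simp

/-- Descent to a smaller modulus. -/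
theorem down {m d : ℕ} [NeZero m] [NeZero (d * m)] (u v : ZMod (d * m)) :
    ‖kl stdAddChar (u * (d : ZMod (d * m))) (v * (d : ZMod (d * m)))‖ ≤ d * ‖kl stdAddChar
      (castHom (dvd_mul_left m d) (ZMod m) u) (castHom (dvd_mul_left m d) (ZMod m) v)‖ := by
  have hd : 0 < d := Nat.pos_of_ne_zero (left_ne_zero_of_mul (NeZero.ne (d * m)))
  let f := unitsMap (dvd_mul_left m d)
  have h1 : kl stdAddChar (u * (d : ZMod (d * m))) (v * (d : ZMod (d * m))) = #{x | f x = 1} *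
      kl stdAddChar (castHom (dvd_mul_left m d) (ZMod m) u)
        (castHom (dvd_mul_left m d) (ZMod m) v) := by
    rw [kl, kl, mul_sum, ← sum_fiberwise univ f]
    refine sum_congr rfl fun y _ => ?_
    rw [← MonoidHom.card_fiber_eq_of_mem_range f (unitsMap_surjective _ y) ⟨1, map_one f⟩,
      ← nsmul_eq_mul, ← sum_const]
    refine sum_congr rfl fun x hx => ?_
    rw [← (mem_filter.1 hx).2, ← map_inv, mul_right_comm, mul_right_comm v, ← add_mul, std_down,
      map_add, map_mul, map_mul]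
    rfl
  rw [h1, norm_mul, Complex.norm_natCast]
  gcongr
  refine le_trans (card_le_card fun x hx => ?_) ((card_shift (d : ZMod (d * m)) 1).trans (ann_le hd))
  have h2 : castHom (dvd_mul_left m d) (ZMod m) ((x : ZMod (d * m)) - 1) = 0 := by
    rw [map_sub, map_one, sub_eq_zero]
    exact congrArg Units.val (mem_filter.1 hx).2
  obtain ⟨k, hk⟩ := ZMod.intCast_surjective ((x : ZMod (d * m)) - 1)
  rw [← hk, map_intCast, intCast_zmod_eq_zero_iff_dvd] at h2
  obtain ⟨j, rfl⟩ := h2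
  rw [mem_filter, ← hk]
  refine ⟨mem_univ _, ?_⟩
  push_cast
  rw [← mul_assoc, ← Nat.cast_mul, natCast_self, zero_mul]

theorem exists_pow {p k : ℕ} (hp : p.Prime) (v : ZMod (p ^ k)) :
    ∃ a ≤ k, ∃ w, IsUnit w ∧ v = w * p ^ a := by
  obtain ⟨d, hd, w, hw, rfl⟩ := v.eq_unit_mul_divisor
  obtain ⟨a, ha, rfl⟩ := (Nat.dvd_prime_pow hp).1 hd
  exact ⟨a, ha, w, hw, by rw [Nat.cast_pow]⟩

theorem total {p k : ℕ} (hp : p.Prime) (x y : ZMod (p ^ k)) : x ∣ y ∨ y ∣ x := by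
  obtain ⟨a, -, w, hw, rfl⟩ := exists_pow hp x
  obtain ⟨b, -, w', hw', rfl⟩ := exists_pow hp y
  simp only [hw.mul_left_dvd, hw'.mul_left_dvd, hw.dvd_mul_left, hw'.dvd_mul_left]
  exact (le_total a b).imp (pow_dvd_pow _) (pow_dvd_pow _)

theorem pow_zero' {p k j : ℕ} (h : k ≤ j) : (p : ZMod (p ^ k)) ^ j = 0 := by
  rw [← Nat.cast_pow, natCast_eq_zero_iff]
  exact pow_dvd_pow _ h

theorem unit_one_add {p k l : ℕ} (hl : 0 < l) (z : ZMod (p ^ k)) : IsUnit (1 + p ^ l * z) :=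
  IsNilpotent.isUnit_one_add ⟨k, by
    rw [mul_pow, ← pow_mul, pow_zero' (Nat.le_mul_of_pos_left k hl), zero_mul]⟩

/-- The bound for prime powers from the bound for primes. -/
theorem prime_pow {p : ℕ} [hp : Fact p.Prime] {C : ℝ}
    (hC : ∀ u v : ZMod p, v ≠ 0 → ‖kl stdAddChar u v‖ ≤ C * √p) (h6 : 6 ≤ C) (k : ℕ)
    (u v : ZMod (p ^ k)) :
    ‖kl stdAddChar u v‖ ≤ C * √(p ^ k : ℕ) * √(Nat.gcd v.val (p ^ k) : ℕ) := by
  obtain ⟨a, ha, w, hw, hv⟩ := exists_pow hp.out v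
  have hp0 : 0 < p := hp.out.pos
  have h1 : p ^ a ≤ Nat.gcd v.val (p ^ k) := by
    refine Nat.le_of_dvd (Nat.gcd_pos_of_pos_right _ (pow_pos hp0 k))
      (Nat.dvd_gcd ?_ (pow_dvd_pow _ ha))
    rw [← natCast_eq_zero_iff, natCast_val, ← castHom_apply (h := pow_dvd_pow p ha), hv, map_mul,
      map_pow, map_natCast, pow_zero' le_rfl, mul_zero]
  refine le_trans ?_ (mul_le_mul_of_nonneg_left (Real.sqrt_le_sqrt (Nat.cast_le.2 h1))
    (by positivity))
  rw [mul_assoc, ← Real.sqrt_mul (Nat.cast_nonneg _)]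
  obtain ⟨j, rfl⟩ := Nat.exists_eq_add_of_le ha
  have hψ := isPrimitive_stdAddChar (p ^ (a + j))
  rcases j with _ | _ | j
  · refine (kl_triv u v).trans ?_
    rw [ZMod.card, add_zero, Real.sqrt_mul_self (Nat.cast_nonneg _)]
    exact le_mul_of_one_le_left (Nat.cast_nonneg _) (by linarith)
  · by_cases h2 : u * p ^ 1 = 0
    · obtain ⟨b, -, w', hw', rfl⟩ := exists_pow hp.out u
      rw [mul_assoc, hw'.mul_right_eq_zero, ← pow_add, ← Nat.cast_pow, natCast_eq_zero_iff,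
        Nat.pow_dvd_pow_iff_le_right hp.out.one_lt] at h2
      obtain ⟨i, rfl⟩ := Nat.exists_eq_add_of_le' (show a ≤ b by omega)
      have : NeZero (p ^ a * p) := ⟨by positivity⟩
      have h5 : w' * (p : ZMod _) ^ (i + a) = w' * (p : ZMod _) ^ i * (p : ZMod _) ^ a := by ring
      rw [hv, h5, ← Nat.cast_pow p a]
      generalize w' * (p : ZMod _) ^ i = t
      have h3 := down (m := p) (d := p ^ a) t w
      have h4 := hC (castHom (dvd_mul_left p (p ^ a)) (ZMod p) t) _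
        (hw.map (castHom (dvd_mul_left p (p ^ a)) (ZMod p))).ne_zero
      refine h3.trans ((mul_le_mul_of_nonneg_left h4 (Nat.cast_nonneg _)).trans (le_of_eq ?_))
      rw [show ((p ^ (a + (0 + 1)) : ℕ) : ℝ) * (p ^ a : ℕ) = (p ^ a : ℕ) * (p ^ a : ℕ) * p by
        push_cast; ring, Real.sqrt_mul (by positivity), Real.sqrt_mul_self (Nat.cast_nonneg _)]
      ring
    · rw [vanish hψ (unit_one_add one_pos) (by
        rw [hv, mul_assoc, ← pow_add, pow_zero' (by omega), mul_zero]) h2, norm_zero]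
      positivity
  · obtain ⟨l, e, h2, h3⟩ : ∃ l e, j + 1 + 1 = 2 * (l + 1) + e ∧ e ≤ 1 :=
      ⟨j / 2, j % 2, by omega, by omega⟩
    have h4 := phase hψ (total hp.out) (u := u) (v := v) (ϖ := p ^ (l + 1)) (e := p ^ e)
      (unit_one_add l.succ_pos)
      (by rw [hv, mul_assoc, ← pow_mul, ← pow_add, pow_zero' (by omega), mul_zero])
      (by rw [hv, mul_assoc, mul_assoc, ← pow_mul, ← pow_add, ← pow_add, pow_zero' (by omega),
        mul_zero])
    have h5 : ∀ i, ann (2 * v * p ^ i) ≤ 2 * p ^ (a + i) := fun i => by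
      rw [show 2 * v * (p : ZMod _) ^ i = w * ((2 * p ^ (a + i) : ℕ) : ZMod _) by
        rw [hv]; push_cast; ring, ann_unit hw]
      exact ann_le (by positivity)
    rw [← pow_add, ← pow_mul, ZMod.card] at h4
    have h7 : (0 : ℝ) < (p ^ (a + (j + 1 + 1)) : ℕ) := by positivity
    refine le_of_mul_le_mul_left (h4.trans ?_) h7
    refine (mul_le_mul (mul_le_mul_of_nonneg_left (Nat.cast_le.2 (h5 _)) zero_le_two)
      (Real.sqrt_le_sqrt (mul_le_mul_of_nonneg_left (Nat.cast_le.2 (h5 _)) h7.le))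
      (by positivity) (by positivity)).trans ?_
    have h8 : √((p ^ (a + (j + 1 + 1)) : ℕ) * (2 * p ^ (a + (l + 1) * 2) : ℕ)) ≤
        3 / 2 * p ^ (l + 1) * √((p ^ (a + (j + 1 + 1)) : ℕ) * (p ^ a : ℕ)) := by
      refine Real.sqrt_le_iff.2 ⟨by positivity, ?_⟩
      rw [mul_pow, Real.sq_sqrt (by positivity)]
      push_cast
      have : (0 : ℝ) ≤ p ^ (a + (j + 1 + 1)) * p ^ (a + (l + 1) * 2) := by positivity
      calc _ ≤ 9 / 4 * ((p : ℝ) ^ (a + (j + 1 + 1)) * p ^ (a + (l + 1) * 2)) := by linarith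
        _ = _ := by ring
    refine (mul_le_mul_of_nonneg_left h8 (by positivity)).trans ?_
    refine le_trans (le_of_eq ?_) (mul_le_mul_of_nonneg_left
      (mul_le_mul_of_nonneg_right h6 (Real.sqrt_nonneg _)) h7.le)
    generalize √((p ^ (a + (j + 1 + 1)) : ℕ) * (p ^ a : ℕ)) = s
    rw [h2]
    push_cast
    ring

end Pool.Agent.Lib.KW.PP
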